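import Mathlib

/-!
# Partition dimension
-/

namespace Pool.Agent.MP_2fd452

/-- The distance `d(v, S) = min {d(v, s) : s ∈ S}` from a vertex to a set of vertices. -/
noncomputable def setDist {V : Type*} (G : SimpleGraph V) (v : V) (S : Set V) : ℕ :=
  sInf {d | ∃ s ∈ S, d = G.dist v s}

/-- The fibres of `c` form a resolving partition into `k` nonempty classes: vertices with the
same distances to all classes are equal. -/
def IsResolving {V : Type*} (G : SimpleGraph V) {k : ℕ} (c : V → Fin k) : Prop :=
  Function.Surjective c ∧
    ∀ u v, (∀ i, setDist G u (c ⁻¹' {i}) = setDist G v (c ⁻¹' {i})) → u = v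

/-- The partition dimension: the least number of classes of a resolving partition. -/
noncomputable def partitionDim {V : Type*} (G : SimpleGraph V) : ℕ :=
  sInf {k | ∃ c : V → Fin k, IsResolving G c}

end Pool.Agent.MP_2fd452
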