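import Pool.Agent.Lib.PolyTime.More
import Pool.Agent.Lib.MP_2fd452_lc.PD

/-!
# Partition dimension of trees: the computational problem
-/

namespace Pool.Agent.MP_2fd452

open Pool.Agent.PolyTime

/-- An input of PD-TREES: the number `n` of vertices, the list of the edges (pairs of numbers
below `n`) and the number `k`. -/
structure GraphInput where
  /-- the number of vertices -/
  n : ℕ
  /-- the list of edges -/
  edges : List (ℕ × ℕ)
  /-- the bound for the partition dimension -/
  k : ℕ

/-- The graph of an input: its vertices are `0, …, n-1`, and `u`, `v` are adjacent iff they are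
different and `(u, v)` or `(v, u)` is listed. -/
def GraphInput.graph (X : GraphInput) : SimpleGraph (Fin X.n) where
  Adj u v := u ≠ v ∧ ((u.val, v.val) ∈ X.edges ∨ (v.val, u.val) ∈ X.edges)
  symm := ⟨fun _ _ h => ⟨h.1.symm, h.2.symm⟩⟩
  loopless := ⟨fun _ h => h.1 rfl⟩

/-- PD-TREES: the graph is a tree, `k` is positive, and the partition dimension is at most `k`. -/
def PDTrees (X : GraphInput) : Prop :=
  X.graph.IsTree ∧ 0 < X.k ∧ partitionDim X.graph ≤ X.k

/-- Inputs are represented by the triple of their components. -/
instance : Rep GraphInput := ⟨fun X => toT (X.n, X.edges, X.k)⟩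

/-- Different inputs have different encodings. -/
instance : InjRep GraphInput := ⟨fun X Y h => by
  obtain ⟨a, b, c⟩ := X
  obtain ⟨a', b', c'⟩ := Y
  have h' := InjRep.inj (α := ℕ × (List (ℕ × ℕ) × ℕ)) h
  simp only [Prod.mk.injEq] at h'
  obtain ⟨rfl, rfl, rfl⟩ := h'
  rfl⟩

end Pool.Agent.MP_2fd452
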