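import Pool.Agent.Lib.MP_2fd452_lc.Items

/-!
# Exact systems as item systems

An exact system asks for a truth assignment to `2 * N` items, exactly `N` of them true, such
that for each pair `(C, t)` of a list exactly `t` of the items occurring in `C` (counted with
multiplicity) are true.
-/

namespace Pool.Agent.MP_2fd452

open Finset

/-- The multiplicities of the item system of an exact system. -/
def xmult (N : ℕ) (Cs : List (List ℕ × ℕ)) (r d : ℕ) : ℕ :=
  if d ≤ 2 then 1
  else match (([], 0) :: Cs)[d - 3]? with
  | none => if r < N + 5 then N + 4 else 0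
  | some p => if r = 0 then 4 - p.2 else if r = 1 then 4 - (p.1.length - p.2)
      else if r < N + 5 then N + 4 else if r < N + 5 + 2 * N then
        1 + p.1.countP (fun s => decide (s = r - (N + 5))) else 0

/-- The admissible constraints. -/
def Adm (N : ℕ) (p : List ℕ × ℕ) : Prop :=
  p.2 ≤ 3 ∧ p.2 ≤ p.1.length ∧ p.1.length ≤ p.2 + 3 ∧ ∀ s ∈ p.1, s < 2 * N

/-- Satisfiability of an exact system. -/
def XSat (N : ℕ) (Cs : List (List ℕ × ℕ)) : Prop :=
  ∃ val : ℕ → Bool, (∑ s ∈ range (2 * N), if val s then 1 else 0) = N ∧
    ∀ p ∈ Cs, p.1.countP val = p.2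

section sums
variable (N : ℕ)

theorem total_eq : (N + 4 + 1) * (N + 4) = (N + 5) + (2 * N + (N * N + 6 * N + 15)) := by ring

theorem sum_split (g : ℕ → ℕ) : ∑ r ∈ range ((N + 4 + 1) * (N + 4)), g r =
    ∑ r ∈ range (N + 5), g r + (∑ s ∈ range (2 * N), g (N + 5 + s) +
      ∑ f ∈ range (N * N + 6 * N + 15), g (N + 5 + (2 * N + f))) := by
  rw [total_eq, sum_range_add g (N + 5) _, sum_range_add (fun x => g (N + 5 + x)) (2 * N) _]

theorem sum_pal (g : ℕ → ℕ) : ∑ r ∈ range (N + 5), g r =
    g 0 + (g 1 + ∑ q ∈ range (N + 3), g (2 + q)) := by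
  rw [show N + 5 = 2 + (N + 3) by ring, sum_range_add, sum_range_succ, sum_range_succ]
  simp
  ring

variable {N} {Cs : List (List ℕ × ℕ)}

theorem xmult_early (r d : ℕ) (hd : d ≤ 2) : xmult N Cs r d = 1 := by
  unfold xmult; rw [if_pos hd]

theorem xmult_none (r d : ℕ) (hd : ¬ d ≤ 2) (h : (([], 0) :: Cs)[d - 3]? = none) :
    xmult N Cs r d = if r < N + 5 then N + 4 else 0 := by
  unfold xmult; rw [if_neg hd, h]

theorem xmult_some (r d : ℕ) (hd : ¬ d ≤ 2) {p : List ℕ × ℕ}
    (h : (([], 0) :: Cs)[d - 3]? = some p) :
    xmult N Cs r d = if r = 0 then 4 - p.2 else if r = 1 then 4 - (p.1.length - p.2)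
      else if r < N + 5 then N + 4 else if r < N + 5 + 2 * N then
        1 + p.1.countP (fun s => decide (s = r - (N + 5))) else 0 := by
  unfold xmult; rw [if_neg hd, h]

/-- The weighted sum on a constraint level. -/
theorem wsum_some (w : ℕ → ℕ) (d : ℕ) (hd : ¬ d ≤ 2) {p : List ℕ × ℕ}
    (h : (([], 0) :: Cs)[d - 3]? = some p) :
    ∑ r ∈ range ((N + 4 + 1) * (N + 4)), w r * xmult N Cs r d =
      w 0 * (4 - p.2) + w 1 * (4 - (p.1.length - p.2)) +
        (∑ q ∈ range (N + 3), w (2 + q)) * (N + 4) +
        ∑ s ∈ range (2 * N), w (N + 5 + s) * (1 + p.1.countP (fun a => decide (a = s))) := by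
  rw [sum_split, sum_pal]
  have e0 : xmult N Cs 0 d = 4 - p.2 := by rw [xmult_some _ _ hd h]; simp
  have e1 : xmult N Cs 1 d = 4 - (p.1.length - p.2) := by rw [xmult_some _ _ hd h]; simp
  have e2 : ∑ q ∈ range (N + 3), w (2 + q) * xmult N Cs (2 + q) d =
      (∑ q ∈ range (N + 3), w (2 + q)) * (N + 4) := by
    rw [sum_mul]
    apply sum_congr rfl
    intro q hq
    rw [mem_range] at hq
    rw [xmult_some _ _ hd h, if_neg (by omega), if_neg (by omega), if_pos (by omega)]
  have e3 : ∑ s ∈ range (2 * N), w (N + 5 + s) * xmult N Cs (N + 5 + s) d =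
      ∑ s ∈ range (2 * N), w (N + 5 + s) * (1 + p.1.countP (fun a => decide (a = s))) := by
    apply sum_congr rfl
    intro s hs
    rw [mem_range] at hs
    rw [xmult_some _ _ hd h, if_neg (by omega), if_neg (by omega), if_neg (by omega),
      if_pos (by omega), Nat.add_sub_cancel_left]
  have e4 : ∑ f ∈ range (N * N + 6 * N + 15), w (N + 5 + (2 * N + f)) *
      xmult N Cs (N + 5 + (2 * N + f)) d = 0 := by
    apply sum_eq_zero
    intro f _
    rw [xmult_some _ _ hd h, if_neg (by omega), if_neg (by omega), if_neg (by omega),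
      if_neg (by omega), mul_zero]
  rw [e0, e1, e2, e3, e4]
  ring

/-- The weighted sum on the last level. -/
theorem wsum_none (w : ℕ → ℕ) (d : ℕ) (hd : ¬ d ≤ 2) (h : (([], 0) :: Cs)[d - 3]? = none) :
    ∑ r ∈ range ((N + 4 + 1) * (N + 4)), w r * xmult N Cs r d =
      (∑ r ∈ range (N + 5), w r) * (N + 4) := by
  rw [sum_split]
  have e2 : ∑ q ∈ range (N + 5), w q * xmult N Cs q d =
      (∑ q ∈ range (N + 5), w q) * (N + 4) := by
    rw [sum_mul]
    apply sum_congr rfl
    intro q hq
    rw [mem_range] at hq
    rw [xmult_none _ _ hd h, if_pos hq]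
  have e3 : ∑ s ∈ range (2 * N), w (N + 5 + s) * xmult N Cs (N + 5 + s) d = 0 := by
    apply sum_eq_zero
    intro s hs
    rw [xmult_none _ _ hd h, if_neg (by omega), mul_zero]
  have e4 : ∑ f ∈ range (N * N + 6 * N + 15), w (N + 5 + (2 * N + f)) *
      xmult N Cs (N + 5 + (2 * N + f)) d = 0 := by
    apply sum_eq_zero
    intro f _
    rw [xmult_none _ _ hd h, if_neg (by omega), mul_zero]
  rw [e2, e3, e4]
  ring

/-- Exchanging the summation. -/
theorem sum_countP (val : ℕ → Bool) (n : ℕ) (C : List ℕ) (hC : ∀ s ∈ C, s < n) :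
    ∑ s ∈ range n, (if val s then 1 else 0) * C.countP (fun a => decide (a = s)) =
      C.countP val := by
  induction C with
  | nil => simp
  | cons a C ih =>
    have ha : a < n := hC a (by simp)
    have h1 := ih (fun s hs => hC s (by simp [hs]))
    have h2 : ∑ s ∈ range n, (if val s then 1 else 0) *
        (a :: C).countP (fun a => decide (a = s)) =
        ∑ s ∈ range n, (if val s then 1 else 0) * C.countP (fun a => decide (a = s)) +
        ∑ s ∈ range n, (if a = s then (if val s then 1 else 0) else 0) := by
      rw [← sum_add_distrib]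
      apply sum_congr rfl
      intro s _
      rw [List.countP_cons]
      by_cases h : a = s
      · subst h
        simp only [decide_true, if_true]
        ring
      · simp [h]
    rw [h2, h1, sum_ite_eq, if_pos (mem_range.2 ha), List.countP_cons]

end sums

/-- The item system of an exact system. -/
def xitems (N : ℕ) (Cs : List (List ℕ × ℕ)) (hCs : ∀ p ∈ Cs, Adm N p) : Items where
  K := N + 4
  M := Cs.length + 4
  mult := xmult N Cs
  hK := by omega
  hM := by omega
  one := fun r d hd => xmult_early r d hd
  mono := by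
    intro r d hd hpos
    by_cases h1 : d - 1 ≤ 2
    · rw [xmult_early r _ h1]; exact one_pos
    · have h2 : ¬ d ≤ 2 := by omega
      have hall : ∀ p ∈ ([], 0) :: Cs, p.2 ≤ 3 ∧ p.1.length ≤ p.2 + 3 := by
        intro p hp
        rcases List.mem_cons.1 hp with rfl | hp
        · simp
        · exact ⟨(hCs p hp).1, (hCs p hp).2.2.1⟩
      cases hc : (([], 0) :: Cs)[d - 1 - 3]? with
      | none =>
        rw [xmult_none r _ h1 hc]
        have hc' : (([], 0) :: Cs)[d - 3]? = none := by
          rw [List.getElem?_eq_none_iff] at hc ⊢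
          omega
        rw [xmult_none r _ h2 hc'] at hpos
        exact hpos
      | some p =>
        rw [xmult_some r _ h1 hc]
        have hp := hall p (List.mem_of_getElem? hc)
        have hr : r < N + 5 + 2 * N := by
          by_contra hr
          cases hc' : (([], 0) :: Cs)[d - 3]? with
          | none =>
            rw [xmult_none r _ h2 hc', if_neg (by omega)] at hpos
            omega
          | some p' =>
            rw [xmult_some r _ h2 hc', if_neg (by omega), if_neg (by omega),
              if_neg (by omega), if_neg hr] at hpos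
            omega
        split_ifs <;> omega
  total := by
    intro d hd1 hd2
    by_cases hd : d ≤ 2
    · rw [sum_congr rfl (fun r _ => xmult_early r d hd)]
      simp
    · have hw : ∑ r ∈ range ((N + 4 + 1) * (N + 4)), xmult N Cs r d =
          ∑ r ∈ range ((N + 4 + 1) * (N + 4)), (fun _ => 1) r * xmult N Cs r d := by
        apply sum_congr rfl
        intro r _
        simp
      rw [hw]
      cases hc : (([], 0) :: Cs)[d - 3]? with
      | none =>
        rw [wsum_none _ d hd hc]
        simp
      | some p =>
        rw [wsum_some _ d hd hc]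
        have hp : p.2 ≤ 3 ∧ p.2 ≤ p.1.length ∧ p.1.length ≤ p.2 + 3 ∧ ∀ s ∈ p.1, s < 2 * N := by
          rcases List.mem_cons.1 (List.mem_of_getElem? hc) with rfl | hp
          · simp
          · exact hCs p hp
        have h1 : ∑ s ∈ range (2 * N), (1 + p.1.countP (fun a => decide (a = s))) =
            2 * N + p.1.length := by
          have h2 := sum_countP (fun _ => true) (2 * N) p.1 hp.2.2.2
          simp only [if_true, one_mul] at h2
          rw [sum_add_distrib, h2]
          simp [List.countP_true]
        simp only [one_mul, sum_const, card_range, smul_eq_mul, mul_one]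
        rw [h1]
        have h3 : 4 - p.2 + (4 - (p.1.length - p.2)) + p.1.length = 8 := by omega
        nlinarith [h3]

theorem ite_eq_mul (P : Prop) [Decidable P] (m : ℕ) :
    (if P then m else 0) = (if P then 1 else 0) * m := by
  split_ifs <;> simp

theorem xitems_nec {N : ℕ} {Cs : List (List ℕ × ℕ)} {hCs : ∀ p ∈ Cs, Adm N p}
    (h : ∃ b, (xitems N Cs hCs).Balanced b) : XSat N Cs := by
  obtain ⟨b, hb⟩ := h
  have hb' : ∀ d, 2 ≤ d → d ≤ Cs.length + 4 → ∀ i : Fin (N + 4 + 1),
      (∑ r ∈ range ((N + 4 + 1) * (N + 4)), (if b r = i then 1 else 0) * xmult N Cs r d) =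
        N + 4 := by
    intro d h1 h2 i
    refine Eq.trans ?_ (hb d h1 h2 i)
    apply sum_congr rfl
    intro r _
    exact (ite_eq_mul _ _).symm
  -- the last level
  have hlast : (∑ r ∈ range (N + 5), if b r = b 0 then 1 else 0) = 1 := by
    have h1 := hb' (Cs.length + 4) (by omega) le_rfl (b 0)
    rw [wsum_none (fun r => if b r = b 0 then 1 else 0) _ (by omega) (by
      rw [List.getElem?_eq_none_iff, List.length_cons]; omega)] at h1
    exact Nat.eq_of_mul_eq_mul_right (by omega : 0 < N + 4) (by rw [h1, one_mul])
  rw [sum_pal] at hlast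
  simp only [if_true] at hlast
  have hw1 : (if b 1 = b 0 then 1 else 0) = 0 := by omega
  have hw2 : (∑ q ∈ range (N + 3), if b (2 + q) = b 0 then 1 else 0) = 0 := by omega
  let val : ℕ → Bool := fun s => decide (b (N + 5 + s) = b 0)
  have hcons : ∀ p ∈ ([], 0) :: Cs, (p.2 ≤ 3) →
      ∑ s ∈ range (2 * N), (if val s then 1 else 0) *
        (1 + p.1.countP (fun a => decide (a = s))) = N + p.2 := by
    intro p hp hp2
    obtain ⟨n, hn⟩ := List.mem_iff_getElem?.1 hp
    have hn' : n < Cs.length + 1 := by
      have := (List.getElem?_eq_some_iff.1 hn).1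
      simpa using this
    have h1 := hb' (n + 3) (by omega) (by omega) (b 0)
    rw [wsum_some (fun r => if b r = b 0 then 1 else 0) (n + 3) (by omega) (p := p)
      (by rw [Nat.add_sub_cancel]; exact hn)] at h1
    simp only [if_true, hw1, hw2, one_mul, zero_mul, add_zero] at h1
    simp only [val, decide_eq_true_eq]
    omega
  have hbase : (∑ s ∈ range (2 * N), if val s then 1 else 0) = N := by
    have h1 := hcons ([], 0) (by simp) (by simp)
    simpa using h1
  refine ⟨val, hbase, ?_⟩
  intro p hp
  have h1 := hcons p (by simp [hp]) (hCs p hp).1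
  simp only [mul_add, mul_one, sum_add_distrib] at h1
  rw [hbase, sum_countP val (2 * N) p.1 (hCs p hp).2.2.2] at h1
  omega

theorem exists_distribution {k : ℕ} (s : Fin (k + 1) → ℕ) (F : ℕ) (h : ∑ i, s i = F) :
    ∃ bf : ℕ → Fin (k + 1), ∀ i, (∑ f ∈ range F, if bf f = i then 1 else 0) = s i := by
  classical
  let e : Fin F ≃ (Σ i, Fin (s i)) := Fintype.equivOfCardEq (by simp [h])
  refine ⟨fun f => if h : f < F then (e ⟨f, h⟩).1 else 0, ?_⟩
  intro i
  rw [Finset.sum_range]
  have h1 : ∀ x : Fin F, (if (if h : (x : ℕ) < F then (e ⟨x, h⟩).1 else 0) = i then 1 else 0) =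
      (if (e x).1 = i then 1 else 0) := by
    intro x
    rw [dif_pos x.2]
  rw [sum_congr rfl (fun x _ => h1 x),
    Equiv.sum_comp e (fun y => if y.1 = i then 1 else 0), Fintype.sum_sigma,
    Finset.sum_eq_single i]
  · simp
  · intro a _ ha
    simp [ha]
  · simp

theorem xitems_suf {N : ℕ} {Cs : List (List ℕ × ℕ)} {hCs : ∀ p ∈ Cs, Adm N p}
    (h : XSat N Cs) : ∃ b, (xitems N Cs hCs).Balanced b := by
  obtain ⟨val, hval, hC⟩ := h
  -- fillers
  obtain ⟨bf, hbf⟩ := exists_distribution (k := N + 4)
    (fun i : Fin (N + 4 + 1) => if i.val ≤ 1 then 3 else N + 3) (N * N + 6 * N + 15) (by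
      rw [Fin.sum_univ_eq_sum_range (fun i => if i ≤ 1 then 3 else N + 3) (N + 4 + 1)]
      rw [sum_pal N]
      have : ∑ q ∈ range (N + 3), (if 2 + q ≤ 1 then 3 else N + 3) = (N + 3) * (N + 3) := by
        rw [sum_congr rfl (fun q _ => if_neg (by omega))]
        simp
      rw [this]
      simp
      ring)
  let b : ℕ → Fin (N + 4 + 1) := fun r =>
    if h : r < N + 4 + 1 then ⟨r, h⟩
    else if r < N + 5 + 2 * N then (if val (r - (N + 5)) then 0 else 1)
    else bf (r - (N + 5 + 2 * N))
  have hb1 : ∀ i : Fin (N + 4 + 1), (∑ r ∈ range (N + 5), if b r = i then 1 else 0) = 1 := by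
    intro i
    have : ∀ r ∈ range (N + 5), (if b r = i then 1 else 0) = (if r = i.val then 1 else 0) := by
      intro r hr
      rw [mem_range] at hr
      simp only [b, dif_pos hr]
      congr 1
      rw [Fin.ext_iff]
    rw [sum_congr rfl this, sum_ite_eq', if_pos (mem_range.2 i.2)]
  have hb0 : b 0 = 0 := by simp [b]
  have hb01 : b 1 = 1 := by
    simp only [b]
    rw [dif_pos (by omega)]
    rfl
  have hb2 : ∀ s, s < 2 * N → b (N + 5 + s) = if val s then 0 else 1 := by
    intro s hs
    simp only [b]
    rw [dif_neg (by omega), if_pos (by omega), Nat.add_sub_cancel_left]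
  have hb3 : ∀ f, b (N + 5 + (2 * N + f)) = bf f := by
    intro f
    simp only [b]
    rw [dif_neg (by omega), if_neg (by omega)]
    congr 1
    omega
  have hnval : (∑ s ∈ range (2 * N), if val s then 0 else 1) = N := by
    have h1 : (∑ s ∈ range (2 * N), if val s then 0 else 1) +
        (∑ s ∈ range (2 * N), if val s then 1 else 0) = 2 * N := by
      rw [← sum_add_distrib, sum_congr rfl (g := fun _ => 1)]
      · simp
      · intro s _
        split_ifs <;> rfl
    omega
  have h10 : (1 : Fin (N + 4 + 1)) ≠ 0 := by
    intro h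
    have := congrArg Fin.val h
    rw [Fin.val_one] at this
    simp at this
  suffices hmain : ∀ d, 2 ≤ d → d ≤ Cs.length + 4 → ∀ i : Fin (N + 4 + 1),
      (∑ r ∈ range ((N + 4 + 1) * (N + 4)), (if b r = i then 1 else 0) *
        xmult N Cs r d) = N + 4 by
    refine ⟨b, ?_⟩
    intro d hd1 hd2 i
    refine Eq.trans ?_ (hmain d hd1 hd2 i)
    apply sum_congr rfl
    intro r _
    exact ite_eq_mul _ _
  intro d hd1 hd2 i
  by_cases hd : d ≤ 2
  · have g1 : (∑ r ∈ range ((N + 4 + 1) * (N + 4)), (if b r = i then 1 else 0) *
        xmult N Cs r d) = ∑ r ∈ range ((N + 4 + 1) * (N + 4)), (if b r = i then 1 else 0) :=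
      sum_congr rfl (fun r _ => by rw [xmult_early r d hd, mul_one])
    have g2 : (∑ s ∈ range (2 * N), if b (N + 5 + s) = i then 1 else 0) =
        ∑ s ∈ range (2 * N), (if (if val s = true then (0 : Fin (N + 4 + 1)) else 1) = i
          then 1 else 0) := sum_congr rfl (fun s hs => by rw [hb2 s (mem_range.1 hs)])
    have g3 : (∑ f ∈ range (N * N + 6 * N + 15), if b (N + 5 + (2 * N + f)) = i then 1 else 0)
        = if i.val ≤ 1 then 3 else N + 3 := by
      rw [← hbf i]
      exact sum_congr rfl (fun f _ => by rw [hb3 f])
    rw [g1, sum_split, hb1 i, g2, g3]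
    by_cases h0 : i = 0
    · subst h0
      have e1 : ∑ x ∈ range (2 * N), (if (if val x = true then (0 : Fin (N + 4 + 1)) else 1) = 0
          then 1 else 0) = N := by
        refine Eq.trans ?_ hval
        apply sum_congr rfl
        intro s _
        cases val s
        · simp [h10]
        · simp
      rw [e1]
      simp
      omega
    · by_cases h1 : i = 1
      · subst h1
        have e1 : ∑ x ∈ range (2 * N), (if (if val x = true then (0 : Fin (N + 4 + 1)) else 1)
            = 1 then 1 else 0) = N := by
          refine Eq.trans ?_ hnval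
          apply sum_congr rfl
          intro s _
          cases val s
          · simp
          · simp [h10.symm]
        rw [e1, Fin.val_one]
        simp
        omega
      · have e1 : ∑ x ∈ range (2 * N), (if (if val x = true then (0 : Fin (N + 4 + 1)) else 1)
            = i then 1 else 0) = 0 := by
          apply sum_eq_zero
          intro s _
          cases val s
          · simp [Ne.symm h1]
          · simp [Ne.symm h0]
        have e2 : ¬ i.val ≤ 1 := by
          intro hle
          have h0' : i.val ≠ 0 := fun h => h0 (Fin.ext h)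
          have h1' : i.val ≠ 1 := fun h => h1 (Fin.ext (by rw [Fin.val_one]; exact h))
          omega
        rw [e1, if_neg e2]
        omega
  · cases hc : (([], 0) :: Cs)[d - 3]? with
    | none =>
      rw [wsum_none (fun r => if b r = i then 1 else 0) d hd hc, hb1 i, one_mul]
    | some p =>
      rw [wsum_some (fun r => if b r = i then 1 else 0) d hd hc]
      have hp : p.2 ≤ 3 ∧ p.2 ≤ p.1.length ∧ p.1.length ≤ p.2 + 3 ∧
          (∀ s ∈ p.1, s < 2 * N) ∧ p.1.countP val = p.2 := by
        rcases List.mem_cons.1 (List.mem_of_getElem? hc) with rfl | hp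
        · simp
        · obtain ⟨q1, q2, q3, q4⟩ := hCs p hp
          exact ⟨q1, q2, q3, q4, hC p hp⟩
      obtain ⟨q1, q2, q3, q4, q5⟩ := hp
      have hpal := hb1 i
      rw [sum_pal, hb0, hb01] at hpal
      have hT : ∑ s ∈ range (2 * N), (if val s then 1 else 0) *
          (1 + p.1.countP (fun a => decide (a = s))) = N + p.2 := by
        simp only [mul_add, mul_one, sum_add_distrib]
        rw [hval, sum_countP val (2 * N) p.1 q4, q5]
      have hF : ∑ s ∈ range (2 * N), (if val s then 0 else 1) *
          (1 + p.1.countP (fun a => decide (a = s))) = N + (p.1.length - p.2) := by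
        have h1 := sum_countP (fun s => !val s) (2 * N) p.1 q4
        have h2 : p.1.countP (fun s => !val s) = p.1.length - p.2 := by
          have := List.length_eq_countP_add_countP val (l := p.1)
          have h3 : p.1.countP (fun s => !val s) = p.1.countP (fun a => decide ¬ val a = true) := by
            congr 1
            funext a
            cases val a <;> simp
          rw [h3]
          omega
        rw [h2] at h1
        simp only [mul_add, mul_one, sum_add_distrib]
        rw [hnval, ← h1]
        congr 1
        apply sum_congr rfl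
        intro s _
        cases val s <;> simp
      have hs : ∀ s ∈ range (2 * N), (if b (N + 5 + s) = i then 1 else 0) *
          (1 + p.1.countP (fun a => decide (a = s))) =
          (if (if val s then (0 : Fin (N + 4 + 1)) else 1) = i then 1 else 0) *
          (1 + p.1.countP (fun a => decide (a = s))) := by
        intro s hs
        rw [hb2 s (mem_range.1 hs)]
      simp only [hb0, hb01]
      rw [sum_congr rfl hs]
      by_cases h0 : i = 0
      · subst h0
        rw [if_pos rfl, if_neg h10] at hpal ⊢
        have e1 : ∑ s ∈ range (2 * N), (if (if val s then (0 : Fin (N + 4 + 1)) else 1) = 0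
            then 1 else 0) * (1 + p.1.countP (fun a => decide (a = s))) = N + p.2 := by
          rw [← hT]
          apply sum_congr rfl
          intro s _
          cases val s
          · simp [h10]
          · simp
        have e2 : (∑ q ∈ range (N + 3), if b (2 + q) = 0 then 1 else 0) = 0 := by omega
        rw [e1, e2]
        omega
      · by_cases h1 : i = 1
        · subst h1
          rw [if_neg (fun h => h0 h.symm), if_pos rfl] at hpal ⊢
          have e1 : ∑ s ∈ range (2 * N), (if (if val s then (0 : Fin (N + 4 + 1)) else 1) = 1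
              then 1 else 0) * (1 + p.1.countP (fun a => decide (a = s))) =
              N + (p.1.length - p.2) := by
            rw [← hF]
            apply sum_congr rfl
            intro s _
            cases val s
            · simp
            · simp [h10.symm]
          have e2 : (∑ q ∈ range (N + 3), if b (2 + q) = 1 then 1 else 0) = 0 := by omega
          rw [e1, e2]
          omega
        · rw [if_neg (fun h => h0 h.symm), if_neg (fun h => h1 h.symm)] at hpal ⊢
          have e1 : ∑ s ∈ range (2 * N), (if (if val s then (0 : Fin (N + 4 + 1)) else 1) = i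
              then 1 else 0) * (1 + p.1.countP (fun a => decide (a = s))) = 0 := by
            apply sum_eq_zero
            intro s _
            cases val s
            · simp [Ne.symm h1]
            · simp [Ne.symm h0]
          have e2 : (∑ q ∈ range (N + 3), if b (2 + q) = i then 1 else 0) = 1 := by omega
          rw [e1, e2]
          omega

/-- The tree of an exact system has a resolving partition with at most `N + 5` classes iff the
system is satisfiable. -/
theorem xitems_iff (N : ℕ) (Cs : List (List ℕ × ℕ)) (hCs : ∀ p ∈ Cs, Adm N p) :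
    (∃ b, (xitems N Cs hCs).Balanced b) ↔ XSat N Cs :=
  ⟨xitems_nec, xitems_suf⟩

end Pool.Agent.MP_2fd452
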