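import Pool.Agent.Lib.MP_2fd452_lc.Exact
import Pool.Agent.Lib.MP_a08d7f_lc.Defs

/-!
# From 3SAT to exact systems
-/

namespace Pool.Agent.MP_2fd452

open Finset Pool.Agent.PathSys

/-- A bound for the indices of the variables. -/
def nv (φ : CNF3) : ℕ := (φ.map (fun c => c.1.1 + (c.2.1.1 + c.2.2.1))).sum + 1

/-- The number of variables of the exact system. -/
def NN (φ : CNF3) : ℕ := nv φ + 2 * φ.length

/-- The item of a literal. -/
def lix (N : ℕ) (l : Lit) : ℕ := if l.2 then l.1 else N + l.1

/-- The constraint of a clause: of the three literals and two auxiliary variables exactly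
three are true. -/
def clauseC (φ : CNF3) (i : ℕ) : List ℕ × ℕ :=
  ([lix (NN φ) (φ.getD i default).1, lix (NN φ) (φ.getD i default).2.1,
    lix (NN φ) (φ.getD i default).2.2, nv φ + 2 * i, nv φ + 2 * i + 1], 3)

/-- The constraints. -/
def cons (φ : CNF3) : List (List ℕ × ℕ) :=
  (List.range (NN φ)).map (fun x => ([x, NN φ + x], 1)) ++
    (List.range φ.length).map (clauseC φ)

theorem var_lt {φ : CNF3} {c : Lit × (Lit × Lit)} (hc : c ∈ φ) :
    c.1.1 < nv φ ∧ c.2.1.1 < nv φ ∧ c.2.2.1 < nv φ := by
  have h := List.single_le_sum (l := φ.map (fun c => c.1.1 + (c.2.1.1 + c.2.2.1)))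
    (fun _ _ => Nat.zero_le _) _ (List.mem_map_of_mem (f := fun c : Lit × (Lit × Lit) =>
      c.1.1 + (c.2.1.1 + c.2.2.1)) hc)
  unfold nv
  refine ⟨?_, ?_, ?_⟩ <;> omega

theorem getD_mem {φ : CNF3} {i : ℕ} (hi : i < φ.length) : φ.getD i default ∈ φ := by
  rw [List.getD_eq_getElem _ _ hi]
  exact List.getElem_mem hi

theorem cons_adm (φ : CNF3) : ∀ p ∈ cons φ, Adm (NN φ) p := by
  intro p hp
  rcases List.mem_append.1 hp with hp | hp
  · obtain ⟨x, hx, rfl⟩ := List.mem_map.1 hp
    rw [List.mem_range] at hx
    refine ⟨by norm_num, by simp, by simp, ?_⟩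
    intro s hs
    simp only [List.mem_cons, List.not_mem_nil, or_false] at hs
    rcases hs with rfl | rfl <;> omega
  · obtain ⟨i, hi, rfl⟩ := List.mem_map.1 hp
    rw [List.mem_range] at hi
    obtain ⟨h1, h2, h3⟩ := var_lt (getD_mem hi)
    have hN : NN φ = nv φ + 2 * φ.length := rfl
    refine ⟨by simp [clauseC], by simp [clauseC], by simp [clauseC], ?_⟩
    intro s hs
    simp only [clauseC, List.mem_cons, List.not_mem_nil, or_false] at hs
    rcases hs with rfl | rfl | rfl | rfl | rfl
    · unfold lix; split_ifs <;> omega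
    · unfold lix; split_ifs <;> omega
    · unfold lix; split_ifs <;> omega
    · omega
    · omega

theorem lix_true {φ : CNF3} {val : ℕ → Bool}
    (hpair : ∀ x, x < NN φ → val (NN φ + x) = !val x) {l : Lit} (hl : l.1 < NN φ)
    (h : val (lix (NN φ) l) = true) : litVal val l := by
  unfold lix at h
  unfold litVal
  cases hs : l.2
  · rw [hs] at h
    simp only [Bool.false_eq_true, if_false] at h
    rw [hpair l.1 hl] at h
    simpa using h
  · rw [hs] at h
    simpa using h

theorem sat_of_xsat {φ : CNF3} (h : XSat (NN φ) (cons φ)) : Sat3 φ := by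
  obtain ⟨val, _, hC⟩ := h
  have hpair : ∀ x, x < NN φ → val (NN φ + x) = !val x := by
    intro x hx
    have h1 := hC ([x, NN φ + x], 1) (List.mem_append_left _
      (List.mem_map.2 ⟨x, List.mem_range.2 hx, rfl⟩))
    simp only [List.countP_cons, List.countP_nil] at h1
    cases h2 : val x <;> cases h3 : val (NN φ + x) <;> simp_all
  refine ⟨val, ?_⟩
  intro c hc
  obtain ⟨i, hi, rfl⟩ := List.mem_iff_getElem.1 hc
  have h1 := hC (clauseC φ i) (List.mem_append_right _
    (List.mem_map.2 ⟨i, List.mem_range.2 hi, rfl⟩))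
  have hget : φ.getD i default = φ[i] := List.getD_eq_getElem _ _ hi
  simp only [clauseC, hget, List.countP_cons, List.countP_nil] at h1
  obtain ⟨b1, b2, b3⟩ := var_lt hc
  have hN : NN φ = nv φ + 2 * φ.length := rfl
  by_cases e1 : val (lix (NN φ) φ[i].1) = true
  · exact Or.inl (lix_true hpair (by omega) e1)
  · by_cases e2 : val (lix (NN φ) φ[i].2.1) = true
    · exact Or.inr (Or.inl (lix_true hpair (by omega) e2))
    · by_cases e3 : val (lix (NN φ) φ[i].2.2) = true
      · exact Or.inr (Or.inr (lix_true hpair (by omega) e3))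
      · exfalso
        rw [if_neg e1, if_neg e2, if_neg e3] at h1
        revert h1
        split_ifs <;> simp

/-- The number of true literals of a clause. -/
def ntrue (v : ℕ → Bool) (c : Lit × (Lit × Lit)) : ℕ :=
  (if v c.1.1 = c.1.2 then 1 else 0) + (if v c.2.1.1 = c.2.1.2 then 1 else 0) +
    (if v c.2.2.1 = c.2.2.2 then 1 else 0)

theorem xsat_of_sat {φ : CNF3} (h : Sat3 φ) : XSat (NN φ) (cons φ) := by
  obtain ⟨v, hv⟩ := h
  have hN : NN φ = nv φ + 2 * φ.length := rfl
  -- values of the variables
  let w : ℕ → Bool := fun x => if x < nv φ then v x else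
    (if (x - nv φ) % 2 = 0 then decide (ntrue v (φ.getD ((x - nv φ) / 2) default) ≤ 2)
      else decide (ntrue v (φ.getD ((x - nv φ) / 2) default) ≤ 1))
  let val : ℕ → Bool := fun s => if s < NN φ then w s else !w (s - NN φ)
  have hval1 : ∀ x, x < NN φ → val x = w x := fun x hx => by simp only [val, if_pos hx]
  have hval2 : ∀ x, val (NN φ + x) = !w x := fun x => by
    simp only [val]
    rw [if_neg (by omega), Nat.add_sub_cancel_left]
  have hlit : ∀ l : Lit, l.1 < nv φ → (val (lix (NN φ) l) = true ↔ v l.1 = l.2) := by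
    intro l hl
    unfold lix
    cases hs : l.2
    · simp only [Bool.false_eq_true, if_false]
      rw [hval2]
      simp only [w, if_pos hl]
      simp
    · simp only [if_true]
      rw [hval1 _ (by omega)]
      simp only [w, if_pos hl]
  refine ⟨val, ?_, ?_⟩
  · rw [two_mul, sum_range_add, ← sum_add_distrib, sum_congr rfl (g := fun _ => 1)]
    · simp
    · intro x hx
      rw [mem_range] at hx
      rw [hval1 x hx, hval2]
      cases w x <;> simp
  · intro p hp
    rcases List.mem_append.1 hp with hp | hp
    · obtain ⟨x, hx, rfl⟩ := List.mem_map.1 hp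
      rw [List.mem_range] at hx
      simp only [List.countP_cons, List.countP_nil]
      rw [hval1 x hx, hval2]
      cases w x <;> simp
    · obtain ⟨i, hi, rfl⟩ := List.mem_map.1 hp
      rw [List.mem_range] at hi
      have hc := getD_mem hi
      obtain ⟨b1, b2, b3⟩ := var_lt hc
      have hsat := hv _ hc
      simp only [clauseC, List.countP_cons, List.countP_nil]
      have e1 : val (nv φ + 2 * i) = decide (ntrue v (φ.getD i default) ≤ 2) := by
        rw [hval1 _ (by omega)]
        simp only [w]
        rw [if_neg (by omega), Nat.add_sub_cancel_left, if_pos (by omega),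
          Nat.mul_div_cancel_left _ (by norm_num)]
      have e2 : val (nv φ + 2 * i + 1) = decide (ntrue v (φ.getD i default) ≤ 1) := by
        rw [hval1 _ (by omega)]
        simp only [w]
        have e3 : nv φ + 2 * i + 1 - nv φ = 2 * i + 1 := by omega
        rw [if_neg (by omega), e3, if_neg (by omega)]
        have e4 : (2 * i + 1) / 2 = i := by omega
        rw [e4]
      rw [e1, e2]
      simp only [hlit _ b1, hlit _ b2, hlit _ b3, decide_eq_true_eq]
      unfold litVal at hsat
      unfold ntrue
      by_cases f1 : v (φ.getD i default).1.1 = (φ.getD i default).1.2 <;>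
      by_cases f2 : v (φ.getD i default).2.1.1 = (φ.getD i default).2.1.2 <;>
      by_cases f3 : v (φ.getD i default).2.2.1 = (φ.getD i default).2.2.2 <;>
      simp only [f1, f2, f3, if_true, if_false] <;> simp_all

/-- Correctness of the reduction to exact systems. -/
theorem xsat_iff (φ : CNF3) : XSat (NN φ) (cons φ) ↔ Sat3 φ :=
  ⟨sat_of_xsat, xsat_of_sat⟩

end Pool.Agent.MP_2fd452
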