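import Pool.Agent.Lib.MP_2fd452_lc.Tree

/-!
# An assignment of classes gives a resolving partition (sufficiency)
-/

namespace Pool.Agent.MP_2fd452

open Finset W

variable {I : Type*} (T : Skel I) {K : ℕ}

/-- The coloring given by the classes of the inner vertices and the missing classes. -/
def col (bin j : I → Fin (K + 1)) : W I K → Fin (K + 1)
  | .rt => 0
  | .nd v => j v
  | .rl l => l
  | .lf v l => (bin v).succAbove l

/-- The Lipschitz function belonging to a class. -/
def Skel.lip (bin : I → Fin (K + 1)) (i : Fin (K + 1)) : W I K → ℤ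
  | .rt => 0
  | .nd v => if bin v = i then (T.dep v : ℤ) else -(T.dep v : ℤ)
  | .rl _ => -1
  | .lf v _ => if bin v = i then (T.dep v : ℤ) + 1 else -((T.dep v : ℤ) + 1)

theorem Skel.lip_up (bin : I → Fin (K + 1)) (hpar : ∀ v u, T.par v = some u → bin v = bin u)
    (i : Fin (K + 1)) {x y : W I K} (h : T.up x = some y) :
    T.lip bin i x ≤ T.lip bin i y + 1 ∧ T.lip bin i y ≤ T.lip bin i x + 1 := by
  cases x with
  | rt => simp [Skel.up] at h
  | nd v =>
    cases hp : T.par v with
    | none =>
      simp only [Skel.up, hp, Option.some.injEq] at h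
      subst h
      simp only [Skel.lip]
      rw [T.dep_none v hp]
      split_ifs <;> norm_num
    | some u =>
      simp only [Skel.up, hp, Option.some.injEq] at h
      subst h
      simp only [Skel.lip]
      rw [T.dep_some v u hp, hpar v u hp]
      push_cast
      split_ifs <;> constructor <;> omega
  | rl l =>
    simp only [Skel.up, Option.some.injEq] at h
    subst h
    simp [Skel.lip]
  | lf v l =>
    simp only [Skel.up, Option.some.injEq] at h
    subst h
    simp only [Skel.lip]
    split_ifs <;> constructor <;> omega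

theorem Skel.lip_adj (bin : I → Fin (K + 1)) (hpar : ∀ v u, T.par v = some u → bin v = bin u)
    (i : Fin (K + 1)) (x y : W I K) (h : (T.graph K).Adj x y) :
    T.lip bin i x ≤ T.lip bin i y + 1 := by
  rcases h with h | h
  · exact (T.lip_up bin hpar i h).1
  · exact (T.lip_up bin hpar i h).2

theorem exists_avoid (hK : 3 ≤ K) (a b d : Fin (K + 1)) : ∃ i, i ≠ a ∧ i ≠ b ∧ i ≠ d := by
  by_contra hcon
  push Not at hcon
  have h1 : (univ : Finset (Fin (K + 1))) ⊆ {a, b, d} := by
    intro i _
    simp only [mem_insert, mem_singleton]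
    by_contra h
    push Not at h
    exact h.2.2 (hcon i h.1 h.2.1)
  have h2 := card_le_card h1
  have h3 : ({a, b, d} : Finset (Fin (K + 1))).card ≤ 3 := card_le_three
  rw [card_univ, Fintype.card_fin] at h2
  omega

/-- **Sufficiency.** -/
theorem sufficiency [Fintype I] [DecidableEq I] (hK : 3 ≤ K) (bin : I → Fin (K + 1))
    (hpar : ∀ v u, T.par v = some u → bin v = bin u)
    (hcount : ∀ d i, (univ.filter (fun v => T.dep v = d ∧ bin v = i)).card ≤ K) :
    ∃ c : W I K → Fin (K + 1), IsResolving (T.graph K) c := by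
  classical
  have hG := T.connected (K := K)
  have hdep : ∀ v, 1 ≤ T.dep v := by
    intro v
    cases hp : T.par v with
    | none => rw [T.dep_none v hp]
    | some u => rw [T.dep_some v u hp]; omega
  -- the classes of the inner vertices
  obtain ⟨j, hj1, hj2⟩ : ∃ j : I → Fin (K + 1), (∀ v, j v ≠ bin v) ∧
      ∀ v v', T.dep v = T.dep v' → bin v = bin v' → j v = j v' → v = v' := by
    have hg : ∀ (d : ℕ) (i : Fin (K + 1)),
        Nonempty ({v : I // T.dep v = d ∧ bin v = i} ↪ {a : Fin (K + 1) // a ≠ i}) := by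
      intro d i
      apply Function.Embedding.nonempty_of_card_le
      rw [Fintype.card_subtype, Fintype.card_subtype_compl, Fintype.card_subtype_eq,
        Fintype.card_fin]
      simpa using hcount d i
    let g := fun d i => (hg d i).some
    have hgj : ∀ (v : I) (d : ℕ) (i : Fin (K + 1)) (h : T.dep v = d ∧ bin v = i),
        (g (T.dep v) (bin v) ⟨v, rfl, rfl⟩).1 = (g d i ⟨v, h⟩).1 := by
      rintro v d i ⟨rfl, rfl⟩
      rfl
    refine ⟨fun v => (g (T.dep v) (bin v) ⟨v, rfl, rfl⟩).1, ?_, ?_⟩
    · intro v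
      exact (g (T.dep v) (bin v) ⟨v, rfl, rfl⟩).2
    · intro v v' h1 h2 h3
      simp only at h3
      rw [hgj v (T.dep v') (bin v') ⟨h1, h2⟩] at h3
      have h4 := (g (T.dep v') (bin v')).injective (Subtype.ext h3)
      exact congrArg Subtype.val h4
  let c : W I K → Fin (K + 1) := col bin j
  have hs : Function.Surjective c := fun i => ⟨.rl i, rfl⟩
  -- distances
  have hbin : ∀ v, sd (T.graph K) c (bin v) (.nd v) =
      T.dep v + (if bin v = 0 then 0 else 1) := by
    intro v
    apply sd_eq hs
    · have h3 := T.dist_rt_le (K := K) (.nd v)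
      simp only [Skel.dw] at h3
      split_ifs with h0
      · exact ⟨.rt, h0.symm, h3⟩
      · refine ⟨.rl (bin v), rfl, ?_⟩
        have h2 := hG.dist_triangle (u := .nd v) (v := .rt) (w := .rl (bin v))
        rw [(T.graph K).dist_comm (u := .rt), SimpleGraph.dist_eq_one_iff_adj.2
          (T.adj_rl (bin v))] at h2
        omega
    · intro y hy
      have h1 := lipschitz_dist hG (T.lip bin (bin v)) (T.lip_adj bin hpar (bin v)) (.nd v) y
      have h2 : T.lip bin (bin v) (.nd v : W I K) = T.dep v := by simp [Skel.lip]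
      rw [h2] at h1
      cases y with
      | rt =>
        have hy' : (0 : Fin (K + 1)) = bin v := hy
        rw [if_pos hy'.symm]
        simp only [Skel.lip] at h1
        omega
      | nd u =>
        have hy' : j u = bin v := hy
        have hu : bin u ≠ bin v := fun h => hj1 u (hy'.trans h.symm)
        simp only [Skel.lip, hu, if_false] at h1
        have := hdep u
        split_ifs <;> omega
      | rl l =>
        simp only [Skel.lip] at h1
        split_ifs <;> omega
      | lf u l =>
        have hy' : (bin u).succAbove l = bin v := hy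
        have hu : bin u ≠ bin v := fun h => (bin u).succAbove_ne l (hy'.trans h.symm)
        simp only [Skel.lip, hu, if_false] at h1
        split_ifs <;> omega
  have hzero : ∀ v, sd (T.graph K) c (j v) (.nd v) = 0 := fun v => sd_self c (.nd v)
  have hzero0 : sd (T.graph K) c 0 (.rt) = 0 := sd_self c (.rt)
  have hcls : ∀ v i, sd (T.graph K) c i (.nd v) = 0 → j v = i := fun v i h =>
    sd_eq_zero hG hs h
  have hone : ∀ v i, i ≠ bin v → i ≠ j v → sd (T.graph K) c i (.nd v) = 1 := by
    intro v i hi hij
    obtain ⟨l, hl⟩ := Fin.exists_succAbove_eq hi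
    have h1 := sd_le (G := T.graph K) (c := c) (i := i) (y := .lf v l) hl (.nd v)
    rw [SimpleGraph.dist_comm, SimpleGraph.dist_eq_one_iff_adj.2 (T.adj_lf v l)] at h1
    have h2 : 1 ≤ sd (T.graph K) c i (.nd v) := sd_pos hG hs (fun h => hij h.symm)
    omega
  have hone0 : ∀ i, i ≠ 0 → sd (T.graph K) c i .rt = 1 := by
    intro i hi
    have h1 := sd_le (G := T.graph K) (c := c) (i := i) (y := .rl i) rfl .rt
    rw [SimpleGraph.dist_comm, SimpleGraph.dist_eq_one_iff_adj.2 (T.adj_rl i)] at h1
    have h2 : 1 ≤ sd (T.graph K) c i .rt := sd_pos hG hs (fun h => hi h.symm)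
    omega
  -- inner vertices
  have keyA : ∀ (v v' : I) (cc : Fin (K + 1)), cc ≠ bin v → cc ≠ bin v' →
      (∀ i, i ≠ cc → sd (T.graph K) c i (.nd v) = sd (T.graph K) c i (.nd v')) → v = v' := by
    intro v v' cc h1 h2 h
    have hjj : j v = j v' := by
      by_cases hv : j v = cc
      · by_cases hv' : j v' = cc
        · rw [hv, hv']
        · have := h (j v') hv'
          rw [hzero v'] at this
          exact hcls v _ this
      · have := h (j v) hv
        rw [hzero v] at this
        exact (hcls v' _ this.symm).symm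
    by_cases hb : bin v = bin v'
    · have h3 := h (bin v) (fun h => h1 h.symm)
      rw [hbin v, hb, hbin v'] at h3
      exact hj2 v v' (by omega) hb hjj
    · exfalso
      have h3 := h (bin v) (fun h => h1 h.symm)
      rw [hbin v, hone v' (bin v) hb (fun h => hj1 v (hjj.trans h.symm))] at h3
      have h4 := h (bin v') (fun h => h2 h.symm)
      rw [hbin v', hone v (bin v') (fun h => hb h.symm)
        (fun h => hj1 v' (hjj.symm.trans h.symm))] at h4
      have d1 := hdep v
      have d2 := hdep v'
      have e1 : bin v = 0 := by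
        by_contra hne
        rw [if_neg hne] at h3
        omega
      have e2 : bin v' = 0 := by
        by_contra hne
        rw [if_neg hne] at h4
        omega
      exact hb (e1.trans e2.symm)
  have keyB : ∀ (v : I) (cc : Fin (K + 1)), cc ≠ bin v →
      (∀ i, i ≠ cc → sd (T.graph K) c i (.nd v) = sd (T.graph K) c i .rt) → False := by
    intro v cc h1 h
    have hb : bin v ≠ 0 := by
      by_cases h0 : (0 : Fin (K + 1)) = cc
      · rw [h0]; exact fun h => h1 h.symm
      · have h3 := h 0 h0
        rw [hzero0] at h3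
        rw [← hcls v 0 h3]
        exact fun h => hj1 v h.symm
    have h3 := h (bin v) (fun h => h1 h.symm)
    rw [hbin v, hone0 (bin v) hb, if_neg hb] at h3
    have := hdep v
    omega
  -- leaves against inner vertices
  have keyC : ∀ (x n y : W I K), (T.graph K).Adj x n → (∀ z, (T.graph K).Adj x z → z = n) →
      c x = c y → (∃ b, ∀ i, i ≠ b → i ≠ c y → sd (T.graph K) c i y = 1) →
      (∀ i, sd (T.graph K) c i x = sd (T.graph K) c i y) → False := by
    rintro x n y h1 h2 hxy ⟨b, hb⟩ h
    obtain ⟨i, i1, i2, i3⟩ := exists_avoid hK b (c y) (c n)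
    have h3 := h i
    rw [hb i i1 i2, sd_leaf hG hs h1 h2 (fun h => i2 (by rw [← hxy, h]))] at h3
    have h4 : 1 ≤ sd (T.graph K) c i n := sd_pos hG hs (fun h => i3 h.symm)
    omega
  have hC1 : ∀ v : I, ∃ b, ∀ i, i ≠ b → i ≠ c (.nd v : W I K) →
      sd (T.graph K) c i (.nd v) = 1 := fun v => ⟨bin v, fun i h1 h2 => hone v i h1 h2⟩
  have hC2 : ∃ b, ∀ i, i ≠ b → i ≠ c (.rt : W I K) →
      sd (T.graph K) c i .rt = 1 := ⟨0, fun i h1 _ => hone0 i h1⟩
  -- leaves against leaves
  have hleaf : ∀ (x n y m : W I K), (T.graph K).Adj x n →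
      (∀ z, (T.graph K).Adj x z → z = n) → (T.graph K).Adj y m →
      (∀ z, (T.graph K).Adj y z → z = m) → c x = c y →
      (∀ i, sd (T.graph K) c i x = sd (T.graph K) c i y) →
      ∀ i, i ≠ c x → sd (T.graph K) c i n = sd (T.graph K) c i m := by
    intro x n y m h1 h2 h3 h4 hxy h i hi
    have h5 := h i
    rw [sd_leaf hG hs h1 h2 (fun h => hi h.symm),
      sd_leaf hG hs h3 h4 (fun h => hi (by rw [hxy, h]))] at h5
    omega
  refine ⟨c, hs, ?_⟩
  intro x y hxy
  have hxy' : ∀ i, sd (T.graph K) c i x = sd (T.graph K) c i y := hxy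
  have hcxy : c x = c y := by
    have := hxy' (c x)
    rw [sd_self] at this
    exact (sd_eq_zero hG hs this.symm).symm
  cases x with
  | rt =>
    cases y with
    | rt => rfl
    | nd v =>
      exact (keyB v (j v) (hj1 v) (fun i _ => (hxy' i).symm)).elim
    | rl l => exact (keyC _ _ _ (T.adj_rl l) (T.uniq_rl l) hcxy.symm hC2
        (fun i => (hxy' i).symm)).elim
    | lf v l => exact (keyC _ _ _ (T.adj_lf v l) (T.uniq_lf v l) hcxy.symm hC2
        (fun i => (hxy' i).symm)).elim
  | nd v =>
    cases y with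
    | rt => exact (keyB v (j v) (hj1 v) (fun i _ => hxy' i)).elim
    | nd v' =>
      have hjj : j v = j v' := hcxy
      rw [keyA v v' (j v) (hj1 v) (hjj ▸ hj1 v') (fun i _ => hxy' i)]
    | rl l => exact (keyC _ _ _ (T.adj_rl l) (T.uniq_rl l) hcxy.symm (hC1 v)
        (fun i => (hxy' i).symm)).elim
    | lf v' l => exact (keyC _ _ _ (T.adj_lf v' l) (T.uniq_lf v' l) hcxy.symm (hC1 v)
        (fun i => (hxy' i).symm)).elim
  | rl l =>
    cases y with
    | rt => exact (keyC _ _ _ (T.adj_rl l) (T.uniq_rl l) hcxy hC2 hxy').elim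
    | nd v => exact (keyC _ _ _ (T.adj_rl l) (T.uniq_rl l) hcxy (hC1 v) hxy').elim
    | rl l' =>
      have : l = l' := hcxy
      rw [this]
    | lf v l' =>
      exfalso
      have h := hleaf _ _ _ _ (T.adj_rl l) (T.uniq_rl l) (T.adj_lf v l') (T.uniq_lf v l')
        hcxy hxy'
      have hne : l ≠ bin v := by
        have h5 : l = (bin v).succAbove l' := hcxy
        rw [h5]; exact (bin v).succAbove_ne l'
      exact keyB v l hne (fun i hi => (h i hi).symm)
  | lf v l =>
    cases y with
    | rt => exact (keyC _ _ _ (T.adj_lf v l) (T.uniq_lf v l) hcxy hC2 hxy').elim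
    | nd v' => exact (keyC _ _ _ (T.adj_lf v l) (T.uniq_lf v l) hcxy (hC1 v') hxy').elim
    | rl l' =>
      exfalso
      have h := hleaf _ _ _ _ (T.adj_lf v l) (T.uniq_lf v l) (T.adj_rl l') (T.uniq_rl l')
        hcxy hxy'
      exact keyB v ((bin v).succAbove l) ((bin v).succAbove_ne l) (fun i hi => h i hi)
    | lf v' l' =>
      have h := hleaf _ _ _ _ (T.adj_lf v l) (T.uniq_lf v l) (T.adj_lf v' l') (T.uniq_lf v' l')
        hcxy hxy'
      have h5 : (bin v).succAbove l = (bin v').succAbove l' := hcxy
      have hvv : v = v' := keyA v v' ((bin v).succAbove l) ((bin v).succAbove_ne l)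
        (h5 ▸ (bin v').succAbove_ne l') (fun i hi => h i hi)
      subst hvv
      rw [Fin.succAbove_right_injective h5]

end Pool.Agent.MP_2fd452
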