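import Pool.Agent.Lib.MP_2fd452_lc.Nec
import Pool.Agent.Lib.MP_2fd452_lc.Suf

/-!
# Item systems

The trees of the reduction consist of items hanging at the root; item `r` has `mult r d` inner
vertices of depth `d`.  A resolving partition with `K + 1` classes exists iff the items can be
distributed to `K + 1` bins so that on every level every bin has exactly `K` inner vertices.
-/

namespace Pool.Agent.MP_2fd452

open Finset W

/-- An item system. -/
structure Items where
  /-- one less than the number of classes -/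
  K : ℕ
  /-- the number of levels -/
  M : ℕ
  /-- the number of inner vertices of an item on a level -/
  mult : ℕ → ℕ → ℕ
  hK : 3 ≤ K
  hM : 2 ≤ M
  one : ∀ r d, d ≤ 2 → mult r d = 1
  mono : ∀ r d, 2 ≤ d → 0 < mult r d → 0 < mult r (d - 1)
  total : ∀ d, 1 ≤ d → d ≤ M → ∑ r ∈ range ((K + 1) * K), mult r d = (K + 1) * K

namespace Items
variable (S : Items)

/-- The names of the inner vertices other than the root: item, depth, number. -/
def F : Finset (ℕ × (ℕ × ℕ)) :=
  (range ((S.K + 1) * S.K)).biUnion fun r => (Icc 1 S.M).biUnion fun d =>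
    (range (S.mult r d)).image fun t => (r, (d, t))

theorem mem_F {x : ℕ × (ℕ × ℕ)} : x ∈ S.F ↔ x.1 < (S.K + 1) * S.K ∧
    1 ≤ x.2.1 ∧ x.2.1 ≤ S.M ∧ x.2.2 < S.mult x.1 x.2.1 := by
  obtain ⟨r, d, t⟩ := x
  simp only [F, mem_biUnion, mem_range, mem_Icc, mem_image, Prod.mk.injEq]
  constructor
  · rintro ⟨r', h1, d', ⟨h2, h3⟩, t', h4, rfl, rfl, rfl⟩
    exact ⟨h1, h2, h3, h4⟩
  · rintro ⟨h1, h2, h3, h4⟩
    exact ⟨r, h1, d, ⟨h2, h3⟩, t, h4, rfl, rfl, rfl⟩

/-- The inner vertices other than the root. -/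
abbrev I : Type := {x : ℕ × (ℕ × ℕ) // x ∈ S.F}

theorem parent_mem {x : ℕ × (ℕ × ℕ)} (hx : x ∈ S.F) (hd : ¬ x.2.1 ≤ 1) :
    (x.1, (x.2.1 - 1, 0)) ∈ S.F := by
  rw [mem_F] at hx ⊢
  obtain ⟨h1, h2, h3, h4⟩ := hx
  refine ⟨h1, ?_, ?_, ?_⟩
  · show 1 ≤ x.2.1 - 1
    omega
  · show x.2.1 - 1 ≤ S.M
    omega
  · show 0 < S.mult x.1 (x.2.1 - 1)
    exact S.mono _ _ (by omega) (by omega)

/-- The skeleton of an item system. -/
def skel : Skel S.I where
  par x := if h : x.1.2.1 ≤ 1 then none else some ⟨(x.1.1, (x.1.2.1 - 1, 0)), S.parent_mem x.2 h⟩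
  dep x := x.1.2.1
  dep_none := by
    intro v hv
    have h1 := (S.mem_F.1 v.2).2.1
    by_cases h : v.1.2.1 ≤ 1
    · omega
    · rw [dif_neg h] at hv
      exact absurd hv (by simp)
  dep_some := by
    intro v u hv
    by_cases h : v.1.2.1 ≤ 1
    · rw [dif_pos h] at hv
      exact absurd hv (by simp)
    · rw [dif_neg h] at hv
      rw [← Option.some.inj hv]
      show v.1.2.1 = v.1.2.1 - 1 + 1
      omega

theorem skel_dep (v : S.I) : S.skel.dep v = v.1.2.1 := rfl

theorem par_eq {v u : S.I} (h : S.skel.par v = some u) :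
    ¬ v.1.2.1 ≤ 1 ∧ u.1 = (v.1.1, (v.1.2.1 - 1, 0)) := by
  by_cases hd : v.1.2.1 ≤ 1
  · simp only [skel, dif_pos hd] at h
    exact absurd h (by simp)
  · simp only [skel, dif_neg hd, Option.some.injEq] at h
    exact ⟨hd, by rw [← h]⟩

theorem count_eq (P : ℕ → Prop) [DecidablePred P] (d : ℕ) (h1 : 1 ≤ d) (h2 : d ≤ S.M) :
    (univ.filter (fun v : S.I => S.skel.dep v = d ∧ P v.1.1)).card =
      ∑ r ∈ range ((S.K + 1) * S.K), if P r then S.mult r d else 0 := by
  classical
  have e1 : (univ.filter (fun v : S.I => S.skel.dep v = d ∧ P v.1.1)).card =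
      (((range ((S.K + 1) * S.K)).filter P).biUnion
        (fun r => (range (S.mult r d)).image fun t => (r, (d, t)))).card := by
    rw [← card_map (Function.Embedding.subtype _)]
    congr 1
    ext x
    simp only [mem_map, mem_filter, mem_univ, true_and, Function.Embedding.coe_subtype,
      mem_biUnion, mem_range, mem_image]
    constructor
    · rintro ⟨v, ⟨h3, h4⟩, rfl⟩
      obtain ⟨h5, h6, h7, h8⟩ := S.mem_F.1 v.2
      rw [skel_dep] at h3
      refine ⟨v.1.1, ⟨h5, h4⟩, v.1.2.2, h3 ▸ h8, ?_⟩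
      rw [← h3]
    · rintro ⟨r, ⟨h3, h4⟩, t, h5, rfl⟩
      exact ⟨⟨(r, (d, t)), S.mem_F.2 ⟨h3, h1, h2, h5⟩⟩, ⟨rfl, h4⟩, rfl⟩
  rw [e1, card_biUnion]
  · rw [sum_filter]
    apply sum_congr rfl
    intro r _
    congr 1
    rw [card_image_of_injective, card_range]
    intro a b h
    simpa using h
  · intro r _ r' _ hne
    rw [Function.onFun, Finset.disjoint_left]
    intro x hx hx'
    simp only [mem_image] at hx hx'
    obtain ⟨t, _, rfl⟩ := hx
    obtain ⟨t', _, h⟩ := hx'
    exact hne (by injection h with h; exact h.symm)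

/-- A distribution of the items to the bins which is balanced on every level. -/
def Balanced (b : ℕ → Fin (S.K + 1)) : Prop :=
  ∀ d, 2 ≤ d → d ≤ S.M → ∀ i,
    (∑ r ∈ range ((S.K + 1) * S.K), if b r = i then S.mult r d else 0) = S.K

theorem nec {c : W S.I S.K → Fin (S.K + 1)} (hc : IsResolving (S.skel.graph S.K) c) :
    ∃ b, S.Balanced b := by
  classical
  obtain ⟨bin, h1, h2⟩ := necessity S.skel (K := S.K) S.M (by
    intro d hd1 hd2
    have := S.count_eq (fun _ => True) d hd1 hd2
    simp only [and_true, if_true] at this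
    rw [this, S.total d hd1 hd2]) (by
    intro v
    exact (S.mem_F.1 v.2).2.2.1) hc
  have hmem : ∀ r, r < (S.K + 1) * S.K → (r, (2, 0)) ∈ S.F := by
    intro r hr
    rw [mem_F]
    refine ⟨hr, by norm_num, S.hM, ?_⟩
    show 0 < S.mult r 2
    rw [S.one r 2 le_rfl]
    exact one_pos
  let b : ℕ → Fin (S.K + 1) := fun r =>
    if h : r < (S.K + 1) * S.K then bin ⟨(r, (2, 0)), hmem r h⟩ else 0
  have hb : ∀ (n : ℕ) (v : S.I), v.1.2.1 = n + 2 → bin v = b v.1.1 := by
    intro n
    induction n with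
    | zero =>
      intro v hv
      obtain ⟨h5, h6, h7, h8⟩ := S.mem_F.1 v.2
      rw [hv, S.one _ _ le_rfl] at h8
      have h9 : v.1.2.2 = 0 := by omega
      simp only [b, dif_pos h5]
      congr 1
      apply Subtype.ext
      exact Prod.ext rfl (Prod.ext hv h9)
    | succ n ih =>
      intro v hv
      have hd : ¬ v.1.2.1 ≤ 1 := by omega
      have hp : S.skel.par v = some ⟨(v.1.1, (v.1.2.1 - 1, 0)), S.parent_mem v.2 hd⟩ := by
        simp only [skel, dif_neg hd]
      rw [h1 v _ hp (by rw [skel_dep]; omega)]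
      exact ih _ (by show v.1.2.1 - 1 = n + 2; omega)
  refine ⟨b, ?_⟩
  intro d hd1 hd2 i
  rw [← S.count_eq (fun r => b r = i) d (by omega) hd2]
  refine Eq.trans ?_ (h2 d i hd1 hd2)
  congr 1
  ext v
  simp only [mem_filter, mem_univ, true_and]
  constructor
  · rintro ⟨h3, h4⟩
    refine ⟨h3, ?_⟩
    rw [skel_dep] at h3
    rw [hb (d - 2) v (by omega), h4]
  · rintro ⟨h3, h4⟩
    refine ⟨h3, ?_⟩
    rw [skel_dep] at h3
    rw [← hb (d - 2) v (by omega), h4]

theorem suf {b : ℕ → Fin (S.K + 1)} (hb : S.Balanced b) :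
    ∃ c : W S.I S.K → Fin (S.K + 1), IsResolving (S.skel.graph S.K) c := by
  classical
  apply sufficiency S.skel S.hK (fun v => b v.1.1)
  · intro v u hp
    have := (S.par_eq hp).2
    rw [this]
  · intro d i
    by_cases h1 : 1 ≤ d
    · by_cases h2 : d ≤ S.M
      · rw [S.count_eq (fun r => b r = i) d h1 h2]
        by_cases h3 : 2 ≤ d
        · exact (hb d h3 h2 i).le
        · have h4 := hb 2 le_rfl S.hM i
          refine le_trans ?_ h4.le
          apply sum_le_sum
          intro r _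
          rw [S.one r d (by omega), S.one r 2 le_rfl]
      · rw [filter_eq_empty_iff.2]
        · simp
        · rintro v _ ⟨h3, _⟩
          rw [skel_dep] at h3
          have := (S.mem_F.1 v.2).2.2.1
          omega
    · rw [filter_eq_empty_iff.2]
      · simp
      · rintro v _ ⟨h3, _⟩
        rw [skel_dep] at h3
        have := (S.mem_F.1 v.2).2.1
        omega

/-- The partition dimension of the tree of an item system. -/
theorem exists_resolving_iff :
    (∃ k ≤ S.K + 1, ∃ c : W S.I S.K → Fin k, IsResolving (S.skel.graph S.K) c) ↔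
      ∃ b, S.Balanced b := by
  constructor
  · rintro ⟨k, hk, c, hc⟩
    have := le_of_resolving S.skel hc
    have hk' : k = S.K + 1 := le_antisymm hk this
    subst hk'
    exact S.nec hc
  · rintro ⟨b, hb⟩
    obtain ⟨c, hc⟩ := S.suf hb
    exact ⟨S.K + 1, le_rfl, c, hc⟩

end Items

end Pool.Agent.MP_2fd452
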