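import Pool.Agent.Lib.MP_2fd452_lc.Defs
import Pool.Agent.Lib.MP_2fd452_lc.Items

/-!
# The instance of PD-TREES belonging to an item system
-/

namespace Pool.Agent.MP_2fd452

open Pool.Agent.PolyTime

/-! ### Invariance of the partition dimension -/

section iso
variable {V V' : Type*} {G : SimpleGraph V} {G' : SimpleGraph V'}

theorem iso_dist_le (e : G ≃g G') (hG : G.Connected) (u v : V) :
    G'.dist (e u) (e v) ≤ G.dist u v := by
  obtain ⟨p, hp⟩ := hG.exists_walk_length_eq_dist u v
  rw [← hp]
  have := SimpleGraph.dist_le (p.map e.toHom)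
  rw [SimpleGraph.Walk.length_map] at this
  exact this

theorem iso_dist (e : G ≃g G') (hG : G.Connected) (u v : V) :
    G'.dist (e u) (e v) = G.dist u v := by
  apply le_antisymm (iso_dist_le e hG u v)
  have hG' : G'.Connected := e.connected_iff.1 hG
  have := iso_dist_le e.symm hG' (e u) (e v)
  simpa using this

theorem iso_resolving (e : G ≃g G') (hG : G.Connected) {k : ℕ} {c : V' → Fin k}
    (hc : IsResolving G' c) : IsResolving G (c ∘ e) := by
  refine ⟨hc.1.comp e.surjective, ?_⟩
  intro u v h
  apply e.injective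
  apply hc.2
  intro i
  have key : ∀ w, setDist G' (e w) (c ⁻¹' {i}) = setDist G w ((c ∘ e) ⁻¹' {i}) := by
    intro w
    unfold setDist
    congr 1
    ext d
    constructor
    · rintro ⟨s, hs, rfl⟩
      refine ⟨e.symm s, by simpa using hs, ?_⟩
      rw [← iso_dist e hG]
      simp
    · rintro ⟨s, hs, rfl⟩
      exact ⟨e s, hs, (iso_dist e hG w s).symm⟩
  rw [key, key]
  exact h i

theorem exists_resolving (G : SimpleGraph V) (hG : G.Connected) [Finite V] :
    ∃ k, ∃ c : V → Fin k, IsResolving G c := by
  obtain ⟨n, ⟨e⟩⟩ := Finite.exists_equiv_fin V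
  refine ⟨n, e, e.surjective, ?_⟩
  intro u v h
  have h1 := h (e u)
  have h2 : setDist G u (e ⁻¹' {e u}) = 0 := by
    have : setDist G u (e ⁻¹' {e u}) ≤ G.dist u u := Nat.sInf_le ⟨u, rfl, rfl⟩
    rw [SimpleGraph.dist_self] at this
    omega
  obtain ⟨s, hs, h3⟩ := Nat.sInf_mem (s := {d | ∃ s ∈ e ⁻¹' {e u}, d = G.dist v s})
    ⟨_, u, rfl, rfl⟩
  have hs' : s = u := e.injective hs
  have h4 : setDist G v (e ⁻¹' {e u}) = G.dist v s := h3
  rw [← h1, h2, hs'] at h4
  exact (hG.dist_eq_zero_iff.1 h4.symm).symm

theorem partitionDim_le_iff (G : SimpleGraph V) (hG : G.Connected) [Finite V] (k : ℕ) :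
    partitionDim G ≤ k ↔ ∃ k' ≤ k, ∃ c : V → Fin k', IsResolving G c := by
  constructor
  · intro h
    exact ⟨partitionDim G, h, Nat.sInf_mem (exists_resolving G hG)⟩
  · rintro ⟨k', hk, c, hc⟩
    exact (Nat.sInf_le ⟨c, hc⟩ : partitionDim G ≤ k').trans hk

end iso

/-! ### Names of the vertices -/

/-- The names of the vertices: the name of an inner vertex, and `0` for the vertex itself or
the number of a leaf. -/
abbrev Name := (ℕ × (ℕ × ℕ)) × ℕ

/-- The name of the root. -/
def rootN : Name := ((0, (0, 0)), 0)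

/-- The inner vertices other than the root. -/
def namesI (K M : ℕ) (mult : ℕ → ℕ → ℕ) : List (ℕ × (ℕ × ℕ)) :=
  (List.range ((K + 1) * K)).flatMap fun r => (List.range M).flatMap fun d =>
    (List.range (mult r (d + 1))).map fun t => (r, (d + 1, t))

/-- All vertices. -/
def names (K M : ℕ) (mult : ℕ → ℕ → ℕ) : List Name :=
  (List.range (K + 2)).map (fun l => ((0, (0, 0)), l)) ++
    (namesI K M mult).flatMap (fun x => (List.range (K + 1)).map (fun l => (x, l)))

/-- The parent. -/
def parN (y : Name) : Name :=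
  if y.2 = 0 then (if y.1.2.1 ≤ 1 then rootN else ((y.1.1, (y.1.2.1 - 1, 0)), 0))
  else (y.1, 0)

/-- The edges. -/
def edgesN (L : List Name) : List (ℕ × ℕ) :=
  (L.filter (fun y => !decide (y = rootN))).map (fun y => (idx y L, idx (parN y) L))

/-- The instance. -/
def inst (K M : ℕ) (mult : ℕ → ℕ → ℕ) : GraphInput :=
  ⟨(names K M mult).length, edgesN (names K M mult), K + 1⟩

theorem nodup_flatMap_of {α β : Type*} {l : List α} {f : α → List β} (hl : l.Nodup)
    (h1 : ∀ x ∈ l, (f x).Nodup) (h2 : ∀ x ∈ l, ∀ y ∈ l, ∀ z, z ∈ f x → z ∈ f y → x = y) :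
    (l.flatMap f).Nodup := by
  rw [List.nodup_flatMap]
  refine ⟨h1, ?_⟩
  have h3 : l.Pairwise (fun x y => x ≠ y) := hl
  refine List.Pairwise.imp_of_mem ?_ h3
  intro x y hx hy hxy z hz hz'
  exact hxy (h2 x hx y hy z hz hz')

theorem mem_namesI {K M : ℕ} {mult : ℕ → ℕ → ℕ} {x : ℕ × (ℕ × ℕ)} :
    x ∈ namesI K M mult ↔ x.1 < (K + 1) * K ∧ 1 ≤ x.2.1 ∧ x.2.1 ≤ M ∧
      x.2.2 < mult x.1 x.2.1 := by
  obtain ⟨r, d, t⟩ := x
  simp only [namesI, List.mem_flatMap, List.mem_range, List.mem_map, Prod.mk.injEq]
  constructor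
  · rintro ⟨r', h1, d', h2, t', h4, rfl, rfl, rfl⟩
    exact ⟨h1, by omega, by omega, h4⟩
  · rintro ⟨h1, h2, h3, h4⟩
    exact ⟨r, h1, d - 1, by omega, t, by rwa [Nat.sub_add_cancel h2], rfl, by omega, rfl⟩

theorem nodup_namesI (K M : ℕ) (mult : ℕ → ℕ → ℕ) : (namesI K M mult).Nodup := by
  unfold namesI
  apply nodup_flatMap_of List.nodup_range
  · intro r _
    apply nodup_flatMap_of List.nodup_range
    · intro d _
      apply List.Nodup.map _ List.nodup_range
      intro a b h
      simpa using h
    · intro d _ d' _ z hz hz'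
      simp only [List.mem_map] at hz hz'
      obtain ⟨t, _, rfl⟩ := hz
      obtain ⟨t', _, h⟩ := hz'
      simp only [Prod.mk.injEq] at h
      omega
  · intro r _ r' _ z hz hz'
    simp only [List.mem_flatMap, List.mem_map] at hz hz'
    obtain ⟨d, _, t, _, rfl⟩ := hz
    obtain ⟨d', _, t', _, h⟩ := hz'
    simp only [Prod.mk.injEq] at h
    exact h.1.symm

theorem nodup_names (K M : ℕ) (mult : ℕ → ℕ → ℕ) : (names K M mult).Nodup := by
  unfold names
  rw [List.nodup_append]
  refine ⟨?_, ?_, ?_⟩
  · apply List.Nodup.map _ List.nodup_range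
    intro a b h
    simpa using h
  · apply nodup_flatMap_of (nodup_namesI K M mult)
    · intro x _
      apply List.Nodup.map _ List.nodup_range
      intro a b h
      simpa using h
    · intro x _ x' _ z hz hz'
      simp only [List.mem_map] at hz hz'
      obtain ⟨t, _, rfl⟩ := hz
      obtain ⟨t', _, h⟩ := hz'
      simp only [Prod.mk.injEq] at h
      exact h.1.symm
  · intro a ha b hb hab
    subst hab
    simp only [List.mem_map] at ha
    obtain ⟨l, _, rfl⟩ := ha
    simp only [List.mem_flatMap, List.mem_map] at hb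
    obtain ⟨x, hx, l', _, h⟩ := hb
    simp only [Prod.mk.injEq] at h
    rw [mem_namesI, h.1] at hx
    simp at hx

namespace Items
variable (S : Items)

/-- The name of a vertex. -/
def nameW : W S.I S.K → Name
  | .rt => rootN
  | .nd v => (v.1, 0)
  | .rl l => ((0, (0, 0)), l.val + 1)
  | .lf v l => (v.1, l.val + 1)

theorem pos_of_mem (v : S.I) : v.1 ≠ (0, (0, 0)) := by
  intro h
  have := (S.mem_F.1 v.2).2.1
  rw [h] at this
  simp at this

theorem nameW_injective : Function.Injective S.nameW := by
  intro x y h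
  cases x with
  | rt =>
    cases y with
    | rt => rfl
    | nd v => simp only [nameW, rootN, Prod.mk.injEq] at h; exact absurd h.1.symm (S.pos_of_mem v)
    | rl l => simp [nameW, rootN] at h
    | lf v l => simp [nameW, rootN] at h
  | nd v =>
    cases y with
    | rt => simp only [nameW, rootN, Prod.mk.injEq] at h; exact absurd h.1 (S.pos_of_mem v)
    | nd v' =>
      simp only [nameW, Prod.mk.injEq] at h
      rw [Subtype.ext h.1]
    | rl l => simp [nameW] at h
    | lf v' l => simp [nameW] at h
  | rl l =>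
    cases y with
    | rt => simp [nameW, rootN] at h
    | nd v => simp [nameW] at h
    | rl l' =>
      simp only [nameW, Prod.mk.injEq, true_and, Nat.add_right_cancel_iff] at h
      rw [Fin.ext h]
    | lf v l' =>
      simp only [nameW, Prod.mk.injEq] at h; exact absurd h.1.symm (S.pos_of_mem v)
  | lf v l =>
    cases y with
    | rt => simp [nameW, rootN] at h
    | nd v' => simp [nameW] at h
    | rl l' => simp only [nameW, Prod.mk.injEq] at h; exact absurd h.1 (S.pos_of_mem v)
    | lf v' l' =>
      simp only [nameW, Prod.mk.injEq, Nat.add_right_cancel_iff] at h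
      rw [Subtype.ext h.1, Fin.ext h.2]

/-- The list of the names. -/
def L : List Name := names S.K S.M S.mult

theorem mem_L {y : Name} : y ∈ S.L ↔ ∃ w, S.nameW w = y := by
  unfold L names
  rw [List.mem_append]
  constructor
  · rintro (h | h)
    · simp only [List.mem_map, List.mem_range] at h
      obtain ⟨l, hl, rfl⟩ := h
      cases l with
      | zero => exact ⟨.rt, rfl⟩
      | succ l => exact ⟨.rl ⟨l, by omega⟩, rfl⟩
    · simp only [List.mem_flatMap, List.mem_map, List.mem_range] at h
      obtain ⟨x, hx, l, hl, rfl⟩ := h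
      have hxF : x ∈ S.F := by
        rw [S.mem_F]
        exact mem_namesI.1 hx
      cases l with
      | zero => exact ⟨.nd ⟨x, hxF⟩, rfl⟩
      | succ l => exact ⟨.lf ⟨x, hxF⟩ ⟨l, by omega⟩, rfl⟩
  · rintro ⟨w, rfl⟩
    have hF : ∀ v : S.I, v.1 ∈ namesI S.K S.M S.mult := fun v => mem_namesI.2 (S.mem_F.1 v.2)
    cases w with
    | rt =>
      left
      exact List.mem_map.2 ⟨0, List.mem_range.2 (by omega), rfl⟩
    | nd v =>
      right
      exact List.mem_flatMap.2 ⟨v.1, hF v, List.mem_map.2 ⟨0, List.mem_range.2 (by omega), rfl⟩⟩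
    | rl l =>
      left
      exact List.mem_map.2 ⟨l.val + 1, List.mem_range.2 (by omega), rfl⟩
    | lf v l =>
      right
      exact List.mem_flatMap.2 ⟨v.1, hF v,
        List.mem_map.2 ⟨l.val + 1, List.mem_range.2 (by omega), rfl⟩⟩

theorem parN_nameW {w w' : W S.I S.K} (h : S.skel.up w = some w') :
    parN (S.nameW w) = S.nameW w' := by
  cases w with
  | rt => simp [Skel.up] at h
  | nd v =>
    cases hp : S.skel.par v with
    | none =>
      simp only [Skel.up, hp, Option.some.injEq] at h
      subst h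
      have := S.skel.dep_none v hp
      rw [skel_dep] at this
      simp [parN, nameW, this]
    | some u =>
      simp only [Skel.up, hp, Option.some.injEq] at h
      subst h
      obtain ⟨h1, h2⟩ := S.par_eq hp
      simp only [parN, nameW, if_true]
      rw [if_neg h1, h2]
  | rl l =>
    simp only [Skel.up, Option.some.injEq] at h
    subst h
    simp [parN, nameW, rootN]
  | lf v l =>
    simp only [Skel.up, Option.some.injEq] at h
    subst h
    simp [parN, nameW]

/-- The instance. -/
def toInput : GraphInput := inst S.K S.M S.mult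

theorem nameW_mem (w : W S.I S.K) : S.nameW w ∈ S.L := S.mem_L.2 ⟨w, rfl⟩

/-- The number of a vertex. -/
noncomputable def num (w : W S.I S.K) : Fin S.toInput.n :=
  ⟨idx (S.nameW w) S.L, idx_lt (S.nameW_mem w)⟩

theorem getElem_num (w : W S.I S.K) : S.L[(S.num w).val]? = some (S.nameW w) :=
  getElem?_idx (S.nameW_mem w)

theorem num_injective : Function.Injective S.num := by
  intro w w' h
  have h1 := S.getElem_num w
  rw [h, S.getElem_num w'] at h1
  exact S.nameW_injective (Option.some.inj h1).symm

theorem num_surjective : Function.Surjective S.num := by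
  intro i
  have hi : i.val < S.L.length := i.2
  obtain ⟨w, hw⟩ := S.mem_L.1 (List.getElem_mem hi)
  refine ⟨w, ?_⟩
  have h1 := S.getElem_num w
  rw [hw, List.getElem?_eq_some_iff] at h1
  obtain ⟨h2, h3⟩ := h1
  exact Fin.ext ((List.Nodup.getElem_inj_iff (nodup_names _ _ _)).1 h3)

theorem edge_iff (w w' : W S.I S.K) :
    ((S.num w).val, (S.num w').val) ∈ S.toInput.edges ↔ S.skel.up w = some w' := by
  have hedges : S.toInput.edges = (S.L.filter (fun y => !decide (y = rootN))).map
      (fun y => (idx y S.L, idx (parN y) S.L)) := rfl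
  rw [hedges, List.mem_map]
  constructor
  · rintro ⟨y, hy, h⟩
    rw [List.mem_filter] at hy
    obtain ⟨hy1, hy2⟩ := hy
    obtain ⟨x, rfl⟩ := S.mem_L.1 hy1
    simp only [Prod.mk.injEq] at h
    have hx : x = w := S.num_injective (Fin.ext h.1)
    subst hx
    cases hu : S.skel.up x with
    | none =>
      rw [S.skel.up_none hu] at hy2
      simp [nameW] at hy2
    | some z =>
      rw [S.parN_nameW hu] at h
      rw [S.num_injective (Fin.ext h.2)]
  · intro h
    refine ⟨S.nameW w, ?_, ?_⟩
    · rw [List.mem_filter]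
      refine ⟨S.nameW_mem w, ?_⟩
      simp only [Bool.not_eq_true', decide_eq_false_iff_not]
      intro h2
      have : w = .rt := S.nameW_injective h2
      subst this
      simp [Skel.up] at h
    · rw [S.parN_nameW h]
      rfl

/-- The isomorphism. -/
noncomputable def iso : S.skel.graph S.K ≃g S.toInput.graph where
  toEquiv := Equiv.ofBijective S.num ⟨S.num_injective, S.num_surjective⟩
  map_rel_iff' := by
    intro w w'
    simp only [Equiv.ofBijective_apply]
    constructor
    · rintro ⟨_, h | h⟩
      · exact Or.inl ((S.edge_iff w w').1 h)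
      · exact Or.inr ((S.edge_iff w' w).1 h)
    · intro h
      refine ⟨fun h2 => (S.skel.graph S.K).loopless.irrefl w ?_, ?_⟩
      · rw [S.num_injective h2] at h ⊢
        exact h
      · rcases h with h | h
        · exact Or.inl ((S.edge_iff w w').2 h)
        · exact Or.inr ((S.edge_iff w' w).2 h)

theorem toInput_isTree : S.toInput.graph.IsTree := (S.iso.isTree_iff).1 S.skel.isTree

theorem toInput_iff : partitionDim S.toInput.graph ≤ S.toInput.k ↔ ∃ b, S.Balanced b := by
  rw [partitionDim_le_iff _ S.toInput_isTree.connected, ← S.exists_resolving_iff]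
  have hk : S.toInput.k = S.K + 1 := rfl
  rw [hk]
  constructor
  · rintro ⟨k', hk', c, hc⟩
    exact ⟨k', hk', _, iso_resolving S.iso S.skel.connected hc⟩
  · rintro ⟨k', hk', c, hc⟩
    exact ⟨k', hk', _, iso_resolving S.iso.symm S.toInput_isTree.connected hc⟩

end Items

end Pool.Agent.MP_2fd452
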