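import Pool.Agent.Lib.MP_2fd452_lc.Tree

/-!
# Resolving partitions give an assignment of classes (necessity)
-/

namespace Pool.Agent.MP_2fd452

open Finset W

variable {I : Type*} (T : Skel I) {K : ℕ}

theorem leaf_inj {k : ℕ} {c : W I K → Fin k} (hc : IsResolving (T.graph K) c)
    {x x' v : W I K} (h1 : (T.graph K).Adj x v) (h2 : ∀ y, (T.graph K).Adj x y → y = v)
    (h3 : (T.graph K).Adj x' v) (h4 : ∀ y, (T.graph K).Adj x' y → y = v)
    (h : c x = c x') : x = x' := by
  apply hc.eq
  intro i
  by_cases hi : c x = i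
  · subst hi
    rw [sd_self]
    rw [h, sd_self]
  · rw [sd_leaf T.connected hc.1 h1 h2 hi, sd_leaf T.connected hc.1 h3 h4 (h ▸ hi)]

theorem rl_inj {k : ℕ} {c : W I K → Fin k} (hc : IsResolving (T.graph K) c) :
    Function.Injective (fun l : Fin (K + 1) => c (.rl l)) := by
  intro l l' h
  have := leaf_inj T hc (T.adj_rl l) (T.uniq_rl l) (T.adj_rl l') (T.uniq_rl l') h
  injection this

theorem lf_inj {k : ℕ} {c : W I K → Fin k} (hc : IsResolving (T.graph K) c) (v : I) :
    Function.Injective (fun l : Fin K => c (.lf v l)) := by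
  intro l l' h
  have := leaf_inj T hc (T.adj_lf v l) (T.uniq_lf v l) (T.adj_lf v l') (T.uniq_lf v l') h
  injection this

/-- The number of classes is at least `K + 1`. -/
theorem le_of_resolving {k : ℕ} {c : W I K → Fin k} (hc : IsResolving (T.graph K) c) :
    K + 1 ≤ k := by
  have := Fintype.card_le_of_injective _ (rl_inj T hc)
  simpa using this

theorem exists_missing {K : ℕ} (f : Fin K → Fin (K + 1)) (hf : Function.Injective f) :
    ∃ i, (∀ l, f l ≠ i) ∧ ∀ j, j ≠ i → ∃ l, f l = j := by
  classical
  have h1 : ((univ.image f)ᶜ).card = 1 := by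
    rw [card_compl, card_image_of_injective _ hf]
    simp
  obtain ⟨i, hi⟩ := card_eq_one.1 h1
  refine ⟨i, ?_, ?_⟩
  · intro l hl
    have : i ∈ (univ.image f)ᶜ := by rw [hi]; simp
    rw [mem_compl] at this
    exact this (mem_image.2 ⟨l, mem_univ _, hl⟩)
  · intro j hj
    by_contra hcon
    have : j ∈ (univ.image f)ᶜ := by
      rw [mem_compl, mem_image]
      rintro ⟨l, _, hl⟩
      exact hcon ⟨l, hl⟩
    rw [hi, mem_singleton] at this
    exact hj this

/-- Level counting: an injection which does not increase the level, between sets with the same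
number of elements on each level, preserves levels. -/
theorem levels_eq {A B : Type*} [DecidableEq A] [DecidableEq B] [Fintype A] (f : A → B)
    (hf : Function.Injective f)
    (a : A → ℕ) (b : B → ℕ) (M : ℕ) (R : ℕ → Finset B)
    (hR : ∀ d ≤ M, (R d).card ≤ (univ.filter (fun x => a x ≤ d)).card)
    (hmem : ∀ x d, d ≤ M → b (f x) ≤ d → f x ∈ R d)
    (hba : ∀ x, b (f x) ≤ a x) (ha : ∀ x, a x ≤ M) :
    (∀ x, b (f x) = a x) ∧ ∀ d ≤ M, ∀ y ∈ R d, ∃ x, f x = y := by
  have hsurj : ∀ d ≤ M, ∀ y ∈ R d, ∃ x, a x ≤ d ∧ f x = y := by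
    intro d hd y hy
    have hsub : (univ.filter (fun x => a x ≤ d)).image f ⊆ R d := by
      intro z hz
      obtain ⟨x, hx, rfl⟩ := mem_image.1 hz
      exact hmem x d hd ((hba x).trans (mem_filter.1 hx).2)
    have heq := eq_of_subset_of_card_le hsub (by
      rw [card_image_of_injective _ hf]; exact hR d hd)
    rw [← heq] at hy
    obtain ⟨x, hx, hxy⟩ := mem_image.1 hy
    exact ⟨x, (mem_filter.1 hx).2, hxy⟩
  refine ⟨?_, fun d hd y hy => ?_⟩
  · intro x
    apply le_antisymm (hba x)
    by_contra hlt
    obtain ⟨x', hx', hxx'⟩ := hsurj (b (f x)) ((hba x).trans (ha x)) (f x)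
      (hmem x _ ((hba x).trans (ha x)) le_rfl)
    have := hf hxx'
    subst this
    omega
  · obtain ⟨x, _, hx⟩ := hsurj d hd y hy
    exact ⟨x, hx⟩

/-- **Necessity.** -/
theorem necessity [Fintype I] [DecidableEq I] (M : ℕ)
    (hcount : ∀ d, 1 ≤ d → d ≤ M → (univ.filter (fun v => T.dep v = d)).card = (K + 1) * K)
    (hM : ∀ v, T.dep v ≤ M) {c : W I K → Fin (K + 1)} (hc : IsResolving (T.graph K) c) :
    ∃ bin : I → Fin (K + 1), (∀ v u, T.par v = some u → 3 ≤ T.dep v → bin v = bin u) ∧
      ∀ d i, 2 ≤ d → d ≤ M →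
        (univ.filter (fun v => T.dep v = d ∧ bin v = i)).card = K := by
  classical
  have hG := T.connected (K := K)
  have hs := hc.1
  have hdep : ∀ v, 1 ≤ T.dep v := by
    intro v
    cases hp : T.par v with
    | none => rw [T.dep_none v hp]
    | some u => rw [T.dep_some v u hp]; omega
  choose bin hbin1 hbin2 using fun v => exists_missing _ (lf_inj T hc v)
  have hroot : ∀ i, ∃ l, c (.rl l) = i :=
    (Finite.injective_iff_surjective.1 (rl_inj T hc))
  -- notation
  let κ := c (.rt : W I K)
  let D : I → ℕ := fun v => sd (T.graph K) c (bin v) (.nd v)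
  let j : I → Fin (K + 1) := fun v => c (.nd v)
  have hle1 : ∀ v i, i ≠ bin v → sd (T.graph K) c i (.nd v) ≤ 1 := by
    intro v i hi
    obtain ⟨l, hl⟩ := hbin2 v i hi
    have h1 := sd_le (G := T.graph K) c hl (.nd v)
    rw [SimpleGraph.dist_comm, SimpleGraph.dist_eq_one_iff_adj.2 (T.adj_lf v l)] at h1
    exact h1
  have hroot1 : ∀ i, sd (T.graph K) c i .rt ≤ 1 := by
    intro i
    obtain ⟨l, hl⟩ := hroot i
    have h1 := sd_le (G := T.graph K) c hl .rt
    rw [SimpleGraph.dist_comm, SimpleGraph.dist_eq_one_iff_adj.2 (T.adj_rl l)] at h1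
    exact h1
  have hD : ∀ v, D v ≤ T.dep v + 1 := by
    intro v
    obtain ⟨l, hl⟩ := hroot (bin v)
    have h1 := sd_le (G := T.graph K) c hl (.nd v)
    have h2 := hG.dist_triangle (u := .nd v) (v := .rt) (w := .rl l)
    have h3 := T.dist_rt_le (K := K) (.nd v)
    rw [(T.graph K).dist_comm (u := .rt), SimpleGraph.dist_eq_one_iff_adj.2 (T.adj_rl l)] at h2
    simp only [Skel.dw] at h3
    change sd (T.graph K) c (bin v) (.nd v) ≤ _
    omega
  have hDκ : ∀ v, bin v = κ → D v ≤ T.dep v := by
    intro v hv
    have h1 := sd_le (G := T.graph K) c hv.symm (.nd v)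
    have h3 := T.dist_rt_le (K := K) (.nd v)
    simp only [Skel.dw] at h3
    change sd (T.graph K) c (bin v) (.nd v) ≤ _
    omega
  have hpos : ∀ v i, j v ≠ i → 1 ≤ sd (T.graph K) c i (.nd v) := fun v i hi => sd_pos hG hs hi
  have hzero : ∀ v, sd (T.graph K) c (j v) (.nd v) = 0 := fun v => sd_self c (.nd v)
  -- equal representations
  have heqA : ∀ v v', j v = j v' → bin v = bin v' → D v = D v' → v = v' := by
    intro v v' h1 h2 h3
    have : (.nd v : W I K) = .nd v' := by
      apply hc.eq
      intro i
      by_cases hi : j v = i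
      · subst hi
        rw [hzero v, h1, hzero v']
      · by_cases hb : i = bin v
        · subst hb
          change D v = _
          rw [h3, h2]
        · have e1 := hle1 v i hb
          have e2 := hle1 v' i (h2 ▸ hb)
          have e3 := hpos v i hi
          have e4 := hpos v' i (h1 ▸ hi)
          omega
    injection this
  have hone : ∀ v i, D v ≤ 1 → j v ≠ i → sd (T.graph K) c i (.nd v) = 1 := by
    intro v i hv hi
    have e3 := hpos v i hi
    by_cases hb : i = bin v
    · subst hb
      have : sd (T.graph K) c (bin v) (.nd v) ≤ 1 := hv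
      omega
    · have e1 := hle1 v i hb
      omega
  have heqB : ∀ v v', j v = j v' → D v ≤ 1 → D v' ≤ 1 → v = v' := by
    intro v v' h1 h2 h3
    have : (.nd v : W I K) = .nd v' := by
      apply hc.eq
      intro i
      by_cases hi : j v = i
      · subst hi
        rw [hzero v, h1, hzero v']
      · rw [hone v i h2 hi, hone v' i h3 (h1 ▸ hi)]
    injection this
  have hfull : ∀ v, D v ≤ 1 → κ ≠ j v := by
    intro v hv hκ
    have : (.nd v : W I K) = .rt := by
      apply hc.eq
      intro i
      by_cases hi : j v = i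
      · subst hi
        rw [hzero v, ← hκ]
        exact (sd_self c .rt).symm
      · rw [hone v i hv hi]
        have e1 := hroot1 i
        have e2 : 1 ≤ sd (T.graph K) c i .rt := sd_pos hG hs (fun h => hi (hκ ▸ h))
        omega
    exact absurd this (by simp)
  -- the slots
  let τ : I → ℕ × (Fin (K + 1) × Fin (K + 1)) := fun v =>
    if 2 ≤ D v then (if bin v = κ then (D v, (κ, j v)) else (D v - 1, (bin v, j v)))
    else (1, (κ, j v))
  have hτ1 : ∀ v, 1 ≤ (τ v).1 := by
    intro v
    simp only [τ]
    split_ifs with h1 h2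
    · show 1 ≤ D v
      omega
    · show 1 ≤ D v - 1
      omega
    · exact le_rfl
  have hτ2 : ∀ v, (τ v).1 ≤ T.dep v := by
    intro v
    have h3 := hD v
    have h4 := hdep v
    simp only [τ]
    split_ifs with h1 h2
    · exact hDκ v h2
    · show D v - 1 ≤ T.dep v
      omega
    · exact h4
  have hτ3 : ∀ v, (τ v).2.1 ≠ (τ v).2.2 := by
    intro v
    have hne : 2 ≤ D v → bin v ≠ j v := by
      intro h h'
      have : D v = 0 := by
        change sd (T.graph K) c (bin v) (.nd v) = 0
        rw [h']
        exact hzero v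
      omega
    simp only [τ]
    split_ifs with h1 h2
    · show κ ≠ j v
      rw [← h2]; exact hne h1
    · exact hne h1
    · exact hfull v (by omega)
  have hτinj : Function.Injective τ := by
    intro v v' h
    simp only [τ] at h
    split_ifs at h with h1 h2 h3 h4 h3 h4 h5 h6
    · simp only [Prod.mk.injEq, true_and] at h
      exact heqA v v' h.2 (by rw [h2, h4]) h.1
    · simp only [Prod.mk.injEq] at h
      exact absurd h.2.1.symm h4
    · simp only [Prod.mk.injEq] at h
      omega
    · simp only [Prod.mk.injEq] at h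
      exact absurd h.2.1 h2
    · simp only [Prod.mk.injEq] at h
      exact heqA v v' h.2.2 h.2.1 (by omega)
    · simp only [Prod.mk.injEq] at h
      exact absurd h.2.1 h2
    · simp only [Prod.mk.injEq] at h
      omega
    · simp only [Prod.mk.injEq] at h
      exact absurd h.2.1.symm h6
    · simp only [Prod.mk.injEq, true_and] at h
      exact heqB v v' h (by omega) (by omega)
  -- counting
  let R : ℕ → Finset (ℕ × (Fin (K + 1) × Fin (K + 1))) := fun d =>
    (Icc 1 d) ×ˢ (univ : Finset (Fin (K + 1))).offDiag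
  have hRcard : ∀ d, (R d).card = d * ((K + 1) * K) := by
    intro d
    simp only [R]
    rw [card_product, offDiag_card]
    simp only [Nat.card_Icc, card_univ, Fintype.card_fin, Nat.add_sub_cancel]
    congr 1
    rw [← Nat.mul_sub_one]
    simp
  have hFcard : ∀ d, d ≤ M →
      (univ.filter (fun v => T.dep v ≤ d)).card = d * ((K + 1) * K) := by
    intro d hd
    have h1 : ((univ.filter (fun v => T.dep v ≤ d) : Finset I) : Set I).MapsTo T.dep
        (Icc 1 d : Finset ℕ) := by
      intro v hv
      simp only [coe_filter, mem_univ, true_and, Set.mem_ofPred_eq] at hv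
      simp only [coe_Icc, Set.mem_Icc]
      exact ⟨hdep v, hv⟩
    rw [card_eq_sum_card_fiberwise h1]
    rw [sum_congr rfl (g := fun _ => (K + 1) * K)]
    · simp
    · intro e he
      rw [mem_Icc] at he
      rw [← hcount e he.1 (he.2.trans hd)]
      congr 1
      ext v
      simp only [mem_filter, mem_univ, true_and]
      constructor
      · exact fun h => h.2
      · exact fun h => ⟨by omega, h⟩
  obtain ⟨hlev, hhit⟩ := levels_eq τ hτinj T.dep (fun y => y.1) M R
    (by intro d hd; rw [hRcard, hFcard d hd])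
    (by
      intro v d hd hv
      simp only [R, mem_product, mem_Icc, mem_offDiag, mem_univ, true_and]
      exact ⟨⟨hτ1 v, hv⟩, hτ3 v⟩)
    hτ2 hM
  -- description of the slots of the deep vertices
  have hdeep : ∀ v, 2 ≤ T.dep v → T.dep v ≤ D v ∧ τ v = (T.dep v, (bin v, j v)) := by
    intro v hv
    have h1 : (τ v).1 = T.dep v := hlev v
    simp only [τ] at h1 ⊢
    split_ifs at h1 ⊢ with h2 h3
    · have h1' : D v = T.dep v := h1
      refine ⟨h1'.ge, ?_⟩
      rw [h1', h3]
    · have h1' : D v - 1 = T.dep v := h1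
      refine ⟨by omega, ?_⟩
      rw [h1']
    · have h1' : 1 = T.dep v := h1
      omega
  refine ⟨bin, ?_, ?_⟩
  · intro v u hp hd
    by_contra hne
    obtain ⟨l, hl⟩ := hbin2 u (bin v) hne
    have h1 := sd_le (G := T.graph K) c hl (.nd v)
    have h2 := hG.dist_triangle (u := .nd v) (v := .nd u) (w := .lf u l)
    rw [SimpleGraph.dist_eq_one_iff_adj.2 (T.adj_par hp), (T.graph K).dist_comm (u := .nd u),
      SimpleGraph.dist_eq_one_iff_adj.2 (T.adj_lf u l)] at h2
    have h3 := (hdeep v (by omega)).1
    change T.dep v ≤ sd (T.graph K) c (bin v) (.nd v) at h3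
    omega
  · intro d i hd hdM
    have hbij : (univ.filter (fun v => T.dep v = d ∧ bin v = i)).image j = univ.erase i := by
      ext a
      simp only [mem_image, mem_filter, mem_univ, true_and, mem_erase, and_true]
      constructor
      · rintro ⟨v, ⟨h1, h2⟩, h3⟩ h4
        have h5 := hτ3 v
        rw [(hdeep v (by omega)).2] at h5
        apply h5
        change bin v = j v
        rw [h2, h3, h4]
      · intro ha
        obtain ⟨v, hv⟩ := hhit M le_rfl (d, (i, a)) (by
          simp only [R, mem_product, mem_Icc, mem_offDiag, mem_univ, true_and]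
          exact ⟨⟨by omega, hdM⟩, fun h => ha h.symm⟩)
        have h1 := hlev v
        rw [hv] at h1
        have h1' : d = T.dep v := h1
        have h2 := (hdeep v (by omega)).2
        rw [hv] at h2
        simp only [Prod.mk.injEq] at h2
        exact ⟨v, ⟨h1'.symm, h2.2.1.symm⟩, h2.2.2.symm⟩
    have hinj : Set.InjOn j (univ.filter (fun v => T.dep v = d ∧ bin v = i) : Finset I) := by
      intro v hv v' hv' h
      simp only [coe_filter, mem_univ, true_and, Set.mem_ofPred_eq] at hv hv'
      apply hτinj
      rw [(hdeep v (by omega)).2, (hdeep v' (by omega)).2, hv.1, hv.2, hv'.1, hv'.2, h]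
    rw [← card_image_of_injOn hinj, hbij, card_erase_of_mem (mem_univ _)]
    simp

end Pool.Agent.MP_2fd452
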