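import Pool.Agent.Lib.MP_2fd452_lc.Inst
import Pool.Agent.Lib.MP_2fd452_lc.FromSat

/-!
# The reduction is computable in polynomial time
-/

namespace Pool.Agent.MP_2fd452

open Pool.Agent.PolyTime Pool.Agent.PathSys

universe u

variable {α : Type u} [Rep α]

theorem PT.namesI {K M : α → ℕ} {mult : α → ℕ → ℕ → ℕ} (hK : PT K) (hM : PT M)
    (hm : PT (fun p : α × (ℕ × ℕ) => mult p.1 p.2.1 p.2.2)) :
    PT (fun a => namesI (K a) (M a) (mult a)) := by
  refine PT.flatMap (l := fun a => List.range ((K a + 1) * K a)) (g := fun a r =>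
    (List.range (M a)).flatMap fun d => (List.range (mult a r (d + 1))).map fun t =>
      (r, (d + 1, t))) (PT.range (PT.mul (PT.succ hK) hK)) ?_
  refine PT.flatMap (l := fun p : α × ℕ => List.range (M p.1)) (g := fun p d =>
    (List.range (mult p.1 p.2 (d + 1))).map fun t => (p.2, (d + 1, t)))
    (PT.range (hM.comp PT.id.fst)) ?_
  refine PT.map (l := fun p : (α × ℕ) × ℕ => List.range (mult p.1.1 p.1.2 (p.2 + 1)))
    (g := fun p t => (p.1.2, (p.2 + 1, t))) (PT.range ?_) ?_
  · exact hm.comp (PT.pair PT.id.fst.fst (PT.pair PT.id.fst.snd (PT.succ PT.id.snd)))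
  · exact PT.pair PT.id.fst.fst.snd (PT.pair (PT.succ PT.id.fst.snd) PT.id.snd)

theorem PT.names {K M : α → ℕ} {mult : α → ℕ → ℕ → ℕ} (hK : PT K) (hM : PT M)
    (hm : PT (fun p : α × (ℕ × ℕ) => mult p.1 p.2.1 p.2.2)) :
    PT (fun a => names (K a) (M a) (mult a)) := by
  refine PT.append (f := fun a => (List.range (K a + 2)).map (fun l => (((0, (0, 0)), l) : Name)))
    (g := fun a => (MP_2fd452.namesI (K a) (M a) (mult a)).flatMap
      (fun x => (List.range (K a + 1)).map (fun l => (x, l)))) ?_ ?_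
  · exact PT.map (g := fun _ l => (((0, (0, 0)), l) : Name))
      (PT.range (PT.add hK (PT.const 2))) (PT.pair (PT.const _) PT.id.snd)
  · refine PT.flatMap (g := fun a x => (List.range (K a + 1)).map (fun l => (x, l)))
      (PT.namesI hK hM hm) ?_
    exact PT.map (l := fun p : α × (ℕ × (ℕ × ℕ)) => List.range (K p.1 + 1))
      (g := fun p l => (p.2, l)) (PT.range (PT.succ (hK.comp PT.id.fst)))
      (PT.pair PT.id.fst.snd PT.id.snd)

theorem PT.parN {y : α → Name} (hy : PT y) : PT (fun a => parN (y a)) := by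
  refine PT.iteProp (c := fun a => (y a).2 = 0) (PT.isZero hy.snd)
    (PT.iteProp (c := fun a => (y a).1.2.1 ≤ 1) (PT.le hy.fst.snd.fst (PT.const 1))
      (PT.const rootN) ?_) ?_
  · exact PT.pair (PT.pair hy.fst.fst (PT.pair (PT.sub hy.fst.snd.fst (PT.const 1))
      (PT.const 0))) (PT.const 0)
  · exact PT.pair hy.fst (PT.const 0)

theorem PT.edgesN {L : α → List Name} (hL : PT L) : PT (fun a => edgesN (L a)) := by
  refine PT.map (l := fun a => (L a).filter (fun y => !decide (y = rootN)))
    (g := fun a y => (idx y (L a), idx (MP_2fd452.parN y) (L a))) ?_ ?_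
  · exact PT.filter (g := fun _ y => !decide (y = rootN)) hL
      (PT.not (PT.eq PT.id.snd (PT.const rootN)))
  · exact PT.pair (PT.idx PT.id.snd (hL.comp PT.id.fst))
      (PT.idx (PT.parN PT.id.snd) (hL.comp PT.id.fst))

theorem PT.xmult {N r d : α → ℕ} {Cs : α → List (List ℕ × ℕ)} (hN : PT N) (hCs : PT Cs)
    (hr : PT r) (hd : PT d) : PT (fun a => xmult (N a) (Cs a) (r a) (d a)) := by
  have hcase : PT (fun a => Option.casesOn (motive := fun _ => ℕ)
      ((([], 0) :: Cs a)[d a - 3]?) (if r a < N a + 5 then N a + 4 else 0)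
      (fun p => if r a = 0 then 4 - p.2 else if r a = 1 then 4 - (p.1.length - p.2)
        else if r a < N a + 5 then N a + 4 else if r a < N a + 5 + 2 * N a then
        1 + (p.1.filter (fun s => decide (s = r a - (N a + 5)))).length else 0)) := by
    refine PT.optionCases (l := fun a => (([], 0) :: Cs a)[d a - 3]?)
      (f := fun a => if r a < N a + 5 then N a + 4 else 0)
      (g := fun a p => if r a = 0 then 4 - p.2 else if r a = 1 then 4 - (p.1.length - p.2)
        else if r a < N a + 5 then N a + 4 else if r a < N a + 5 + 2 * N a then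
        1 + (p.1.filter (fun s => decide (s = r a - (N a + 5)))).length else 0) ?_ ?_ ?_
    · exact PT.getElem? (PT.cons (PT.const ([], 0)) hCs) (PT.sub hd (PT.const 3))
    · exact PT.iteProp (c := fun a => r a < N a + 5) (PT.lt hr (PT.add hN (PT.const 5)))
        (PT.add hN (PT.const 4)) (PT.const 0)
    · have hr' : PT (fun p : α × (List ℕ × ℕ) => r p.1) := hr.comp PT.id.fst
      have hN' : PT (fun p : α × (List ℕ × ℕ) => N p.1) := hN.comp PT.id.fst
      refine PT.iteProp (c := fun p : α × (List ℕ × ℕ) => r p.1 = 0) (PT.isZero hr')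
        (PT.sub (PT.const 4) PT.id.snd.snd) ?_
      refine PT.iteProp (c := fun p : α × (List ℕ × ℕ) => r p.1 = 1)
        (PT.natEq hr' (PT.const 1))
        (PT.sub (PT.const 4) (PT.sub (PT.length PT.id.snd.fst) PT.id.snd.snd)) ?_
      refine PT.iteProp (c := fun p : α × (List ℕ × ℕ) => r p.1 < N p.1 + 5)
        (PT.lt hr' (PT.add hN' (PT.const 5))) (PT.add hN' (PT.const 4)) ?_
      refine PT.iteProp (c := fun p : α × (List ℕ × ℕ) => r p.1 < N p.1 + 5 + 2 * N p.1)
        (PT.lt hr' (PT.add (PT.add hN' (PT.const 5)) (PT.mul (PT.const 2) hN'))) ?_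
        (PT.const 0)
      refine PT.add (PT.const 1) (PT.length ?_)
      refine PT.filter (l := fun p : α × (List ℕ × ℕ) => p.2.1)
        (g := fun p s => decide (s = r p.1 - (N p.1 + 5))) PT.id.snd.fst ?_
      exact PT.natEq PT.id.snd (PT.sub (hr'.comp PT.id.fst)
        (PT.add (hN'.comp PT.id.fst) (PT.const 5)))
  refine (PT.iteProp (c := fun a => d a ≤ 2) (PT.le hd (PT.const 2)) (PT.const 1)
    hcase).congr ?_
  intro a
  unfold MP_2fd452.xmult
  cases (([], 0) :: Cs a)[d a - 3]? with
  | none => rfl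
  | some p => simp only [List.countP_eq_length_filter]

/-! ### Formulas -/

theorem PT.nv : PT nv := by
  refine PT.succ (PT.sum (PT.map (l := fun φ : CNF3 => φ)
    (g := fun _ c => c.1.1 + (c.2.1.1 + c.2.2.1)) PT.id ?_))
  exact PT.add PT.id.snd.fst.fst (PT.add PT.id.snd.snd.fst.fst PT.id.snd.snd.snd.fst)

theorem PT.NN : PT NN := PT.add PT.nv (PT.mul (PT.const 2) (PT.length PT.id))

theorem PT.lix {N : α → ℕ} {l : α → Lit} (hN : PT N) (hl : PT l) :
    PT (fun a => lix (N a) (l a)) :=
  PT.ite hl.snd hl.fst (PT.add hN hl.fst)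

theorem PT.clauseC {φ : α → CNF3} {i : α → ℕ} (hφ : PT φ) (hi : PT i) :
    PT (fun a => clauseC (φ a) (i a)) := by
  have hN : PT (fun a => MP_2fd452.NN (φ a)) := PT.NN.comp hφ
  have hnv : PT (fun a => MP_2fd452.nv (φ a)) := PT.nv.comp hφ
  have hg : PT (fun a => (φ a).getD (i a) default) := PT.listGetD hφ hi (PT.const default)
  have hs : PT (fun a => MP_2fd452.nv (φ a) + 2 * i a) :=
    PT.add hnv (PT.mul (PT.const 2) hi)
  refine PT.pair (PT.cons (PT.lix hN hg.fst) (PT.cons (PT.lix hN hg.snd.fst)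
    (PT.cons (PT.lix hN hg.snd.snd) (PT.cons hs (PT.cons (PT.succ hs) (PT.const []))))))
    (PT.const 3)

theorem PT.cons' : PT MP_2fd452.cons := by
  refine PT.append (f := fun φ => (List.range (MP_2fd452.NN φ)).map
    (fun x => ([x, MP_2fd452.NN φ + x], 1)))
    (g := fun φ => (List.range φ.length).map (MP_2fd452.clauseC φ)) ?_ ?_
  · refine PT.map (g := fun φ x => ([x, MP_2fd452.NN φ + x], 1)) (PT.range PT.NN) ?_
    exact PT.pair (PT.cons PT.id.snd (PT.cons (PT.add (PT.NN.comp PT.id.fst) PT.id.snd)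
      (PT.const []))) (PT.const 1)
  · exact PT.map (g := fun φ i => MP_2fd452.clauseC φ i) (PT.range (PT.length PT.id))
      (PT.clauseC PT.id.fst PT.id.snd)

/-- The reduction. -/
def reduction (φ : CNF3) : GraphInput :=
  inst (NN φ + 4) ((cons φ).length + 4) (xmult (NN φ) (cons φ))

theorem PT.reduction : PT reduction := by
  have hnames : PT (fun φ : CNF3 => MP_2fd452.names (MP_2fd452.NN φ + 4)
      ((MP_2fd452.cons φ).length + 4)
      (MP_2fd452.xmult (MP_2fd452.NN φ) (MP_2fd452.cons φ))) := by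
    refine PT.names (mult := fun φ r d => MP_2fd452.xmult (MP_2fd452.NN φ)
      (MP_2fd452.cons φ) r d) (PT.add PT.NN (PT.const 4))
      (PT.add (PT.length PT.cons') (PT.const 4)) ?_
    exact PT.xmult (PT.NN.comp PT.id.fst) (PT.cons'.comp PT.id.fst) PT.id.snd.fst PT.id.snd.snd
  exact PT.pair (PT.length hnames) (PT.pair (PT.edgesN hnames)
    (PT.succ (PT.add PT.NN (PT.const 4))))

theorem reduction_eq (φ : CNF3) :
    reduction φ = (xitems (NN φ) (cons φ) (cons_adm φ)).toInput := rfl

theorem reduction_isTree (φ : CNF3) : (reduction φ).graph.IsTree := by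
  rw [reduction_eq]
  exact Items.toInput_isTree _

theorem reduction_iff (φ : CNF3) :
    Sat3 φ ↔ partitionDim (reduction φ).graph ≤ (reduction φ).k := by
  rw [reduction_eq, Items.toInput_iff, xitems_iff, xsat_iff]

theorem reduction_pos (φ : CNF3) : 0 < (reduction φ).k := Nat.succ_pos _

theorem reduction_correct (φ : CNF3) : Sat3 φ ↔ PDTrees (reduction φ) := by
  unfold PDTrees
  rw [reduction_iff]
  constructor
  · intro h
    exact ⟨reduction_isTree φ, reduction_pos φ, h⟩
  · intro h
    exact h.2.2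

end Pool.Agent.MP_2fd452
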