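import Pool.Agent.Lib.MP_2fd452_lc.PD

/-!
# Rooted trees with many leaves

The trees of the reduction: every inner vertex other than the root has exactly `K` leaves
attached, the root has `K + 1` leaves.
-/

namespace Pool.Agent.MP_2fd452

/-- The skeleton: the inner vertices other than the root. -/
structure Skel (I : Type*) where
  /-- the parent (`none` is the root) -/
  par : I → Option I
  /-- the depth -/
  dep : I → ℕ
  dep_none : ∀ v, par v = none → dep v = 1
  dep_some : ∀ v u, par v = some u → dep v = dep u + 1

/-- The vertices of the tree: the root, the inner vertices, the leaves at the root, and the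
leaves at the other inner vertices. -/
inductive W (I : Type*) (K : ℕ)
  | rt : W I K
  | nd : I → W I K
  | rl : Fin (K + 1) → W I K
  | lf : I → Fin K → W I K

open W

section dist
variable {V : Type*} {G : SimpleGraph V}

theorem lipschitz_le (f : V → ℤ) (hf : ∀ x y, G.Adj x y → f x ≤ f y + 1) :
    ∀ {x y : V} (p : G.Walk x y), f x ≤ f y + p.length
  | _, _, .nil => by simp
  | _, _, .cons h p => by
    have h1 := hf _ _ h
    have h2 := lipschitz_le f hf p
    rw [SimpleGraph.Walk.length_cons]
    push_cast
    omega

theorem lipschitz_dist (hG : G.Connected) (f : V → ℤ) (hf : ∀ x y, G.Adj x y → f x ≤ f y + 1)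
    (x y : V) : f x ≤ f y + G.dist x y := by
  obtain ⟨p, hp⟩ := hG.exists_walk_length_eq_dist x y
  rw [← hp]
  exact lipschitz_le f hf p

theorem dist_leaf (hG : G.Connected) {x v : V} (hadj : G.Adj x v)
    (huniq : ∀ y, G.Adj x y → y = v) {y : V} (hy : y ≠ x) : G.dist x y = G.dist v y + 1 := by
  apply le_antisymm
  · have h1 := hG.dist_triangle (u := x) (v := v) (w := y)
    rw [SimpleGraph.dist_eq_one_iff_adj.2 hadj] at h1
    omega
  · obtain ⟨p, hp⟩ := hG.exists_walk_length_eq_dist x y
    rw [← hp]
    cases p with
    | nil => exact absurd rfl hy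
    | cons h p =>
      have := huniq _ h
      subst this
      rw [SimpleGraph.Walk.length_cons]
      have := SimpleGraph.dist_le p
      omega

/-! ### Distances to classes -/

variable {k : ℕ}

/-- The distance to the class `i`. -/
noncomputable def sd (G : SimpleGraph V) (c : V → Fin k) (i : Fin k) (v : V) : ℕ :=
  setDist G v (c ⁻¹' {i})

theorem sd_le (c : V → Fin k) {i : Fin k} {y : V} (hy : c y = i) (v : V) :
    sd G c i v ≤ G.dist v y :=
  Nat.sInf_le ⟨y, hy, rfl⟩

theorem exists_sd {c : V → Fin k} (hc : Function.Surjective c) (i : Fin k) (v : V) :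
    ∃ y, c y = i ∧ sd G c i v = G.dist v y := by
  obtain ⟨y, hy⟩ := hc i
  obtain ⟨z, hz, h⟩ := Nat.sInf_mem (s := {d | ∃ s ∈ c ⁻¹' {i}, d = G.dist v s})
    ⟨_, y, hy, rfl⟩
  exact ⟨z, hz, h⟩

theorem sd_eq {c : V → Fin k} (hc : Function.Surjective c) {i : Fin k} {v : V} {d : ℕ}
    (h1 : ∃ y, c y = i ∧ G.dist v y ≤ d) (h2 : ∀ y, c y = i → d ≤ G.dist v y) :
    sd G c i v = d := by
  obtain ⟨y, hy, hyd⟩ := h1
  obtain ⟨z, hz, h⟩ := exists_sd (G := G) hc i v
  apply le_antisymm
  · exact (sd_le c hy v).trans hyd
  · rw [h]; exact h2 z hz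

theorem sd_self (c : V → Fin k) (v : V) : sd G c (c v) v = 0 := by
  have := sd_le (G := G) c (rfl : c v = c v) v
  rw [SimpleGraph.dist_self] at this
  omega

theorem sd_eq_zero (hG : G.Connected) {c : V → Fin k} (hc : Function.Surjective c) {i : Fin k}
    {v : V} (h : sd G c i v = 0) : c v = i := by
  obtain ⟨z, hz, h'⟩ := exists_sd (G := G) hc i v
  rw [h] at h'
  rw [hG.dist_eq_zero_iff.1 h'.symm]
  exact hz

theorem sd_pos (hG : G.Connected) {c : V → Fin k} (hc : Function.Surjective c) {i : Fin k}
    {v : V} (h : c v ≠ i) : 1 ≤ sd G c i v := by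
  by_contra hcon
  exact h (sd_eq_zero hG hc (by omega))

theorem sd_leaf (hG : G.Connected) {c : V → Fin k} (hc : Function.Surjective c) {x v : V}
    (hadj : G.Adj x v) (huniq : ∀ y, G.Adj x y → y = v) {i : Fin k} (hi : c x ≠ i) :
    sd G c i x = sd G c i v + 1 := by
  obtain ⟨z, hz, h⟩ := exists_sd (G := G) hc i v
  apply sd_eq hc
  · refine ⟨z, hz, ?_⟩
    rw [dist_leaf hG hadj huniq (fun h => hi (h ▸ hz)), h]
  · intro y hy
    rw [dist_leaf hG hadj huniq (fun h => hi (h ▸ hy))]
    have := sd_le (G := G) c hy v
    omega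

theorem IsResolving.eq {c : V → Fin k} (h : IsResolving G c) {u v : V}
    (huv : ∀ i, sd G c i u = sd G c i v) : u = v := h.2 u v huv

end dist

section graph
variable {I : Type*} (T : Skel I) {K : ℕ}

/-- The parent in the full tree. -/
def Skel.up : W I K → Option (W I K)
  | .rt => none
  | .nd v => some (match T.par v with
    | none => .rt
    | some u => .nd u)
  | .rl _ => some .rt
  | .lf v _ => some (.nd v)

/-- The depth in the full tree. -/
def Skel.dw : W I K → ℕ
  | .rt => 0
  | .nd v => T.dep v
  | .rl _ => 1
  | .lf v _ => T.dep v + 1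

theorem Skel.dw_up {x y : W I K} (h : T.up x = some y) : T.dw x = T.dw y + 1 := by
  cases x with
  | rt => simp [Skel.up] at h
  | nd v =>
    cases hp : T.par v with
    | none =>
      simp only [Skel.up, hp, Option.some.injEq] at h
      subst h
      simp only [Skel.dw]
      rw [T.dep_none v hp]
    | some u =>
      simp only [Skel.up, hp, Option.some.injEq] at h
      subst h
      simp only [Skel.dw]
      exact T.dep_some v u hp
  | rl l =>
    simp only [Skel.up, Option.some.injEq] at h
    subst h
    rfl
  | lf v l =>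
    simp only [Skel.up, Option.some.injEq] at h
    subst h
    rfl

theorem Skel.up_none {x : W I K} (h : T.up x = none) : x = .rt := by
  cases x <;> simp [Skel.up] at h ⊢

/-- The tree as a simple graph. -/
def Skel.graph (K : ℕ) : SimpleGraph (W I K) where
  Adj x y := T.up x = some y ∨ T.up y = some x
  symm := ⟨fun _ _ h => h.symm⟩
  loopless := ⟨fun x h => by
    rcases h with h | h
    · have := T.dw_up h
      omega
    · have := T.dw_up h
      omega⟩

theorem Skel.adj_iff {x y : W I K} :
    (T.graph K).Adj x y ↔ T.up x = some y ∨ T.up y = some x := Iff.rfl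

theorem Skel.exists_walk : ∀ (n : ℕ) (x : W I K), T.dw x = n →
    ∃ p : (T.graph K).Walk x .rt, p.length = n := by
  intro n
  induction n with
  | zero =>
    intro x hx
    cases hu : T.up x with
    | none =>
      have := T.up_none hu
      subst this
      exact ⟨.nil, rfl⟩
    | some y =>
      have := T.dw_up hu
      omega
  | succ n ih =>
    intro x hx
    cases hu : T.up x with
    | none =>
      have := T.up_none hu
      subst this
      simp [Skel.dw] at hx
    | some y =>
      have := T.dw_up hu
      obtain ⟨p, hp⟩ := ih y (by omega)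
      exact ⟨.cons (Or.inl hu) p, by rw [SimpleGraph.Walk.length_cons, hp]⟩

theorem Skel.connected : (T.graph K).Connected := by
  have : Nonempty (W I K) := ⟨.rt⟩
  refine ⟨?_⟩
  intro x y
  obtain ⟨p, _⟩ := T.exists_walk _ x rfl
  obtain ⟨q, _⟩ := T.exists_walk _ y rfl
  exact p.reachable.trans q.reachable.symm

theorem Skel.dist_rt_le (x : W I K) : (T.graph K).dist x .rt ≤ T.dw x := by
  obtain ⟨p, hp⟩ := T.exists_walk _ x rfl
  rw [← hp]
  exact SimpleGraph.dist_le p

theorem Skel.adj_rl (l : Fin (K + 1)) : (T.graph K).Adj (.rl l) .rt := Or.inl rfl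

theorem Skel.adj_lf (v : I) (l : Fin K) : (T.graph K).Adj (.lf v l) (.nd v) := Or.inl rfl

theorem Skel.up_ne_rl (x : W I K) (l : Fin (K + 1)) : T.up x ≠ some (.rl l) := by
  cases x with
  | rt => simp [Skel.up]
  | nd v => cases hp : T.par v <;> simp [Skel.up, hp]
  | rl l => simp [Skel.up]
  | lf v l => simp [Skel.up]

theorem Skel.up_ne_lf (x : W I K) (v : I) (l : Fin K) : T.up x ≠ some (.lf v l) := by
  cases x with
  | rt => simp [Skel.up]
  | nd v => cases hp : T.par v <;> simp [Skel.up, hp]
  | rl l => simp [Skel.up]
  | lf v l => simp [Skel.up]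

theorem Skel.uniq_rl (l : Fin (K + 1)) : ∀ y, (T.graph K).Adj (.rl l) y → y = .rt := by
  intro y h
  rcases h with h | h
  · simp only [Skel.up, Option.some.injEq] at h
    exact h.symm
  · exact absurd h (T.up_ne_rl y l)

theorem Skel.uniq_lf (v : I) (l : Fin K) : ∀ y, (T.graph K).Adj (.lf v l) y → y = .nd v := by
  intro y h
  rcases h with h | h
  · simp only [Skel.up, Option.some.injEq] at h
    exact h.symm
  · exact absurd h (T.up_ne_lf y v l)

theorem Skel.adj_par {v u : I} (h : T.par v = some u) :
    (T.graph K).Adj (.nd v) (.nd u) := Or.inl (by simp [Skel.up, h])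

theorem Skel.finite [Finite I] : Finite (W I K) := by
  have : Function.Injective (fun x : W I K => (match x with
    | .rt => Sum.inl none
    | .nd v => Sum.inl (some v)
    | .rl l => Sum.inr (Sum.inl l)
    | .lf v l => Sum.inr (Sum.inr (v, l)) : Option I ⊕ (Fin (K + 1) ⊕ I × Fin K))) := by
    intro x y h
    cases x <;> cases y <;> simp_all
  exact Finite.of_injective _ this

theorem Skel.isTree [Finite I] : (T.graph K).IsTree := by
  have := Skel.finite (I := I) (K := K)
  rw [SimpleGraph.isTree_iff_connected_and_card]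
  refine ⟨T.connected, ?_⟩
  apply le_antisymm
  · -- the edges are given by the vertices other than the root
    have hsurj : Function.Surjective (fun x : {x : W I K // x ≠ .rt} =>
        (⟨s(x.1, (T.up x.1).getD .rt), by
          rw [SimpleGraph.mem_edgeSet]
          left
          cases hu : T.up x.1 with
          | none => exact absurd (T.up_none hu) x.2
          | some y => rfl⟩ : (T.graph K).edgeSet)) := by
      rintro ⟨e, he⟩
      induction e with
      | _ a b =>
        rw [SimpleGraph.mem_edgeSet] at he
        rcases he with he | he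
        · refine ⟨⟨a, ?_⟩, ?_⟩
          · rintro rfl; simp [Skel.up] at he
          · simp [he]
        · refine ⟨⟨b, ?_⟩, ?_⟩
          · rintro rfl; simp [Skel.up] at he
          · simp [he, Sym2.eq_swap]
    have h1 : Nat.card (T.graph K).edgeSet ≤ Nat.card {x : W I K // x ≠ .rt} :=
      Nat.card_le_card_of_surjective _ hsurj
    have h2 : Nat.card {x : W I K // x ≠ .rt} + 1 = Nat.card (W I K) := by
      let _ := Fintype.ofFinite (W I K)
      classical
      rw [Nat.card_eq_fintype_card, Nat.card_eq_fintype_card, Fintype.card_subtype_compl,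
        Fintype.card_subtype_eq]
      have : 0 < Fintype.card (W I K) := Fintype.card_pos_iff.2 ⟨.rt⟩
      omega
    omega
  · exact T.connected.card_vert_le_card_edgeSet_add_one

end graph

end Pool.Agent.MP_2fd452
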